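import Mathlib

/-! Abstract reproducing kernel lemmas. -/

open scoped InnerProductSpace ComplexConjugate

namespace Pool.Agent.H55DA

variable {X : Type*} {H : Type*} [NormedAddCommGroup H] [InnerProductSpace ℂ H] [CompleteSpace H]

/-- Membership criterion: a function `g` on `X` is represented by a vector of `H` of norm `≤ C`
as soon as the functional `K i ↦ conj (g i)` is bounded by `C` on the span of the `K i`. -/
theorem exists_of_bound (K : X → H) (g : X → ℂ) (C : ℝ) (hC : 0 ≤ C)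
    (h : ∀ (s : Finset X) (c : X → ℂ),
      ‖∑ i ∈ s, c i * conj (g i)‖ ≤ C * ‖∑ i ∈ s, c i • K i‖) :
    ∃ G : H, ‖G‖ ≤ C ∧ ∀ i, ⟪K i, G⟫_ℂ = g i := by
  let T : (X →₀ ℂ) →ₗ[ℂ] H := Finsupp.linearCombination ℂ K
  let L : (X →₀ ℂ) →ₗ[ℂ] ℂ := Finsupp.linearCombination ℂ (fun i => conj (g i))
  have hTL : ∀ c, ‖L c‖ ≤ C * ‖T c‖ := by
    intro c
    have := h c.support c
    simpa [T, L, Finsupp.linearCombination_apply, Finsupp.sum] using this
  have hker : LinearMap.ker T ≤ LinearMap.ker L := by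
    intro c hc
    rw [LinearMap.mem_ker] at hc ⊢
    have := hTL c
    rw [hc, norm_zero, mul_zero] at this
    exact norm_le_zero_iff.mp this
  let φ₀ : LinearMap.range T →ₗ[ℂ] ℂ :=
    ((LinearMap.ker T).liftQ L hker).comp (LinearMap.quotKerEquivRange T).symm.toLinearMap
  have hφ₀ : ∀ c, φ₀ ⟨T c, LinearMap.mem_range_self T c⟩ = L c := by
    intro c
    have : (LinearMap.quotKerEquivRange T).symm ⟨T c, LinearMap.mem_range_self T c⟩ =
        (LinearMap.ker T).mkQ c := by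
      rw [LinearEquiv.symm_apply_eq]
      rfl
    simp only [φ₀, LinearMap.comp_apply, LinearEquiv.coe_coe, this]
    rfl
  have hφ₀b : ∀ x : LinearMap.range T, ‖φ₀ x‖ ≤ C * ‖x‖ := by
    rintro ⟨_, c, rfl⟩
    rw [hφ₀ c]
    exact hTL c
  let φ : LinearMap.range T →L[ℂ] ℂ := φ₀.mkContinuous C hφ₀b
  obtain ⟨ψ, hψ, hψn⟩ := exists_extension_norm_eq (LinearMap.range T) φ
  refine ⟨(InnerProductSpace.toDual ℂ H).symm ψ, ?_, ?_⟩
  · rw [LinearIsometryEquiv.norm_map, hψn]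
    exact LinearMap.mkContinuous_norm_le _ hC _
  · intro i
    rw [← inner_conj_symm, InnerProductSpace.toDual_symm_apply]
    have h1 : K i = T (Finsupp.single i 1) := by simp [T]
    have h2 := hψ ⟨T (Finsupp.single i 1), LinearMap.mem_range_self T _⟩
    simp only at h2
    rw [h1, h2]
    have h3 : φ ⟨T (Finsupp.single i 1), LinearMap.mem_range_self T _⟩ =
      L (Finsupp.single i 1) := hφ₀ _
    rw [h3]
    simp [L]

omit [CompleteSpace H] in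
/-- The functional attached to a vector of `H`. -/
theorem sum_conj_inner (K : X → H) (u : H) (s : Finset X) (c : X → ℂ) :
    ∑ i ∈ s, c i * conj ⟪K i, u⟫_ℂ = ⟪u, ∑ i ∈ s, c i • K i⟫_ℂ := by
  rw [inner_sum]
  refine Finset.sum_congr rfl fun i _ => ?_
  rw [inner_smul_right, inner_conj_symm]

/-- Multiplier criterion. -/
theorem exists_mul (K : X → H) (f : X → ℂ)
    (h : ∀ (s : Finset X) (c : X → ℂ),
      ‖∑ i ∈ s, c i • (conj (f i) • K i)‖ ≤ ‖∑ i ∈ s, c i • K i‖) (u : H) :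
    ∃ G : H, ‖G‖ ≤ ‖u‖ ∧ ∀ i, ⟪K i, G⟫_ℂ = f i * ⟪K i, u⟫_ℂ := by
  refine exists_of_bound K (fun i => f i * ⟪K i, u⟫_ℂ) ‖u‖ (norm_nonneg _) ?_
  intro s c
  have h1 : ∑ i ∈ s, c i * conj (f i * ⟪K i, u⟫_ℂ) =
      ⟪u, ∑ i ∈ s, c i • (conj (f i) • K i)⟫_ℂ := by
    rw [inner_sum]
    refine Finset.sum_congr rfl fun i _ => ?_
    rw [inner_smul_right, inner_smul_right, map_mul, inner_conj_symm]
  rw [h1]
  exact (norm_inner_le_norm _ _).trans (mul_le_mul_of_nonneg_left (h s c) (norm_nonneg _))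

/-- Composition criterion: if the Gram matrix of `K' (ψ j)` is `M²` times that of `k j`,
then `g ∘ ψ` is represented in the space of `k`. -/
theorem exists_comp {Y : Type*} {E : Type*} [NormedAddCommGroup E] [InnerProductSpace ℂ E]
    [CompleteSpace E] (K : X → H) (k : Y → E) (ψ : Y → X) (M : ℝ) (hM : 0 ≤ M)
    (hK : ∀ i j, ⟪K (ψ i), K (ψ j)⟫_ℂ = (M : ℂ) ^ 2 * ⟪k i, k j⟫_ℂ) (u : H) :
    ∃ G : E, ‖G‖ ≤ M * ‖u‖ ∧ ∀ j, ⟪k j, G⟫_ℂ = ⟪K (ψ j), u⟫_ℂ := by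
  refine exists_of_bound k (fun j => ⟪K (ψ j), u⟫_ℂ) (M * ‖u‖) (by positivity) ?_
  intro s c
  rw [sum_conj_inner (fun j => K (ψ j)) u s c]
  have h2 : ‖∑ i ∈ s, c i • K (ψ i)‖ = M * ‖∑ i ∈ s, c i • k i‖ := by
    have h3 : ⟪∑ i ∈ s, c i • K (ψ i), ∑ i ∈ s, c i • K (ψ i)⟫_ℂ =
        (M : ℂ) ^ 2 * ⟪∑ i ∈ s, c i • k i, ∑ i ∈ s, c i • k i⟫_ℂ := by
      simp only [inner_sum, sum_inner, inner_smul_left, inner_smul_right, hK, Finset.mul_sum]
      refine Finset.sum_congr rfl fun i _ => Finset.sum_congr rfl fun j _ => ?_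
      ring
    rw [inner_self_eq_norm_sq_to_K, inner_self_eq_norm_sq_to_K] at h3
    have h4 : ‖∑ i ∈ s, c i • K (ψ i)‖ ^ 2 = (M * ‖∑ i ∈ s, c i • k i‖) ^ 2 := by
      have : ((‖∑ i ∈ s, c i • K (ψ i)‖ ^ 2 : ℝ) : ℂ) =
          (((M * ‖∑ i ∈ s, c i • k i‖) ^ 2 : ℝ) : ℂ) := by
        push_cast
        rw [mul_pow]
        exact h3
      exact_mod_cast this
    exact (pow_left_inj₀ (norm_nonneg _) (by positivity) two_ne_zero).mp h4
  calc ‖⟪u, ∑ i ∈ s, c i • K (ψ i)⟫_ℂ‖ ≤ ‖u‖ * ‖∑ i ∈ s, c i • K (ψ i)‖ :=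
        norm_inner_le_norm _ _
    _ = M * ‖u‖ * ‖∑ i ∈ s, c i • k i‖ := by rw [h2]; ring

end Pool.Agent.H55DA
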