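import Mathlib

/-! An atomless probability measure on a closed Lebesgue-null subset of `[0,1]`. -/

open MeasureTheory Set Real
open scoped Pointwise

namespace Pool.Agent.H55DA

theorem volume_cantorSet : volume cantorSet = 0 := by
  have hfin : volume cantorSet ≠ ⊤ := isCompact_cantorSet.measure_lt_top.ne
  have hle : volume cantorSet ≤ volume ((· / 3) '' cantorSet) +
      volume ((fun x : ℝ => (2 + x) / 3) '' cantorSet) := by
    conv_lhs => rw [cantorSet_eq_union_halves]
    exact measure_union_le _ _
  have h1 : volume ((· / 3) '' cantorSet) = ENNReal.ofReal (1/3) * volume cantorSet := by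
    have : ((· / 3) '' cantorSet) = (fun x : ℝ => (1/3 : ℝ) • x) '' cantorSet := by
      congr 1; ext x; simp; ring
    rw [this]
    have := Measure.addHaar_smul (volume : Measure ℝ) (1/3 : ℝ) cantorSet
    simp only [Module.finrank_self, pow_one] at this
    rw [show ((fun x : ℝ => (1/3 : ℝ) • x) '' cantorSet) = (1/3 : ℝ) • cantorSet from rfl, this]
    rw [abs_of_pos (by norm_num)]
  have h2 : volume ((fun x : ℝ => (2 + x) / 3) '' cantorSet) =
      ENNReal.ofReal (1/3) * volume cantorSet := by
    rw [← h1]
    have : ((fun x : ℝ => (2 + x) / 3) '' cantorSet) =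
        (fun x : ℝ => 2/3 + x) '' ((· / 3) '' cantorSet) := by
      rw [Set.image_image]; congr 1; ext x; ring
    rw [this, Set.image_add_left]
    simp
  rw [h1, h2] at hle
  by_contra h0
  have hpos : 0 < (volume cantorSet).toReal := ENNReal.toReal_pos h0 hfin
  have := ENNReal.toReal_mono (by finiteness) hle
  rw [← two_mul, ENNReal.toReal_mul, ENNReal.toReal_mul, ENNReal.toReal_ofReal (by norm_num)] at this
  simp at this
  linarith

theorem not_countable_cantorSet : ¬ Countable cantorSet := by
  intro hc
  let F : (ℕ → Bool) → cantorSet := fun f =>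
    ⟨ofDigits (fun i ↦ cond (f i) (2 : Fin 3) 0), ofDigits_bool_to_fin_three_mem_cantorSet f⟩
  have hF : Function.Injective F := by
    intro f g h
    have h' : ofDigits (fun i ↦ cond (f i) (2 : Fin 3) 0) =
      ofDigits (fun i ↦ cond (g i) (2 : Fin 3) 0) := congrArg Subtype.val h
    have := ofDigits_zero_two_sequence_unique (a := fun i ↦ cond (f i) (2 : Fin 3) 0)
      (b := fun i ↦ cond (g i) (2 : Fin 3) 0) (by grind) (by grind) h'
    funext i
    have hi := congrFun this i
    revert hi
    cases f i <;> cases g i <;> simp
  have hc' : Countable (ℕ → Bool) := hF.countable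
  obtain ⟨G, hG⟩ := exists_surjective_nat (ℕ → Bool)
  obtain ⟨n, hn⟩ := hG (fun k => !(G k k))
  have := congrFun hn n
  revert this
  cases G n n <;> simp

/-- There is an atomless probability measure carried by the Cantor set. -/
theorem exists_measure : ∃ τ : Measure ℝ, IsProbabilityMeasure τ ∧ NullSingletonClass τ ∧
    τ cantorSetᶜ = 0 := by
  have h1 : ¬ Countable (Icc (0:ℝ) 1) := by
    intro h
    have := Set.Countable.measure_zero (s := Icc (0:ℝ) 1) h volume
    simp at this
  have : StandardBorelSpace cantorSet := isClosed_cantorSet.measurableSet.standardBorel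
  let e : Icc (0:ℝ) 1 ≃ᵐ cantorSet :=
    PolishSpace.measurableEquivOfNotCountable h1 not_countable_cantorSet
  let φ : Icc (0:ℝ) 1 → ℝ := fun x => (e x : ℝ)
  have hφm : Measurable φ := measurable_subtype_coe.comp e.measurable
  have hφi : Function.Injective φ := Subtype.val_injective.comp e.injective
  let ν : Measure (Icc (0:ℝ) 1) := Measure.comap Subtype.val volume
  have hν : ∀ s : Set (Icc (0:ℝ) 1), ν s = volume (Subtype.val '' s) := by
    intro s
    exact (MeasurableEmbedding.subtype_coe measurableSet_Icc).comap_apply volume s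
  refine ⟨ν.map φ, ?_, ?_, ?_⟩
  · refine ⟨?_⟩
    rw [Measure.map_apply hφm MeasurableSet.univ, Set.preimage_univ, hν]
    rw [Set.image_univ, Subtype.range_coe, Real.volume_Icc]
    simp
  · refine ⟨fun x => ?_⟩
    rw [Measure.map_apply hφm (measurableSet_singleton x), hν]
    have hs : (Subtype.val '' (φ ⁻¹' {x}) : Set ℝ).Subsingleton := by
      apply Set.Subsingleton.image
      intro a ha b hb
      exact hφi (ha.trans hb.symm)
    exact hs.measure_zero volume
  · rw [Measure.map_apply hφm isClosed_cantorSet.measurableSet.compl]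
    have : φ ⁻¹' cantorSetᶜ = ∅ := by
      ext x; simp [φ]
    rw [this]; simp

end Pool.Agent.H55DA
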