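import Mathlib

/-! The quantitative obstruction in the disc. -/

open scoped ComplexConjugate
open MeasureTheory Filter Topology

namespace Pool.Agent.H55DA

theorem pointwise_bound (G S u : ℂ) (C s0 δ κ : ℝ) (n : ℕ) (hC0 : 0 < C) (hC1 : C ≤ 1)
    (hs0 : 0 ≤ s0) (hs1 : s0 ≤ 1) (hδ : 0 < δ) (hκ : 0 < κ) (hS : ‖S‖ ≤ 1)
    (hu : u = G * (C * S) ^ (n + 1) - (C * S) ^ n) :
    -((C:ℂ) ^ (n + 1) * (G * S - s0 * G) - (C:ℂ) ^ n + (C:ℂ) ^ n * s0 * S).re ≤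
      δ + δ⁻¹ * ‖u‖ ^ 2 + κ * ‖G‖ ^ 2 + (κ⁻¹ + 2) * (1 - ‖S‖ ^ (2 * n + 2)) := by
  set x : ℝ := ‖S‖ ^ 2 with hx
  have hx0 : 0 ≤ x := by positivity
  have hx1 : x ≤ 1 := by
    have := norm_nonneg S
    nlinarith
  set e : ℝ := 1 - ‖S‖ ^ (2 * n + 2) with he
  have he' : e = 1 - x ^ (n + 1) := by
    rw [he, hx, ← pow_mul]
    congr 2
  have hX0 : 0 ≤ x ^ n := by positivity
  have hX1 : x ^ n ≤ 1 := pow_le_one₀ hx0 hx1
  have hXX : x ^ (n + 1) ≤ x ^ n := pow_le_pow_of_le_one hx0 hx1 (Nat.le_succ n)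
  have he0 : 0 ≤ e := by rw [he']; linarith
  have he1 : e ≤ 1 := by rw [he']; have : 0 ≤ x ^ (n+1) := by positivity
                         linarith
  have hSS : conj S * S = (x : ℂ) := by
    rw [hx, Complex.conj_mul']
    push_cast
    rfl
  set main : ℂ := (C:ℂ) ^ (n + 1) * (G * S - s0 * G) - (C:ℂ) ^ n * (1 - s0 * conj S) with hmain
  have hre : ((C:ℂ) ^ (n + 1) * (G * S - s0 * G) - (C:ℂ) ^ n + (C:ℂ) ^ n * s0 * S).re = main.re := by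
    have h1 : (C:ℂ) ^ (n + 1) * (G * S - s0 * G) - (C:ℂ) ^ n + (C:ℂ) ^ n * s0 * S =
      main + ((C:ℂ) ^ n * s0 * S - (C:ℂ) ^ n * s0 * conj S) := by
      rw [hmain]; ring
    have h2 : ((C:ℂ) ^ n * s0 * S - (C:ℂ) ^ n * s0 * conj S).re = 0 := by
      rw [← mul_sub]
      have h3 : ((C:ℂ) ^ n * s0) = ((C ^ n * s0 : ℝ) : ℂ) := by push_cast; rfl
      rw [h3, Complex.re_ofReal_mul]
      simp
    rw [h1, Complex.add_re, h2, add_zero]
  have hCn : ‖(C:ℂ) ^ n‖ ≤ 1 := by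
    rw [norm_pow, Complex.norm_real, Real.norm_eq_abs, abs_of_pos hC0]
    exact pow_le_one₀ hC0.le hC1
  have hCn1 : ‖(C:ℂ) ^ (n + 1)‖ ≤ 1 := by
    rw [norm_pow, Complex.norm_real, Real.norm_eq_abs, abs_of_pos hC0]
    exact pow_le_one₀ hC0.le hC1
  have hid : main = u * (conj S ^ n * (1 - s0 * conj S)) +
      ((C:ℂ) ^ (n + 1) * (G * S * (1 - (x:ℂ) ^ n) - s0 * G * (1 - (x:ℂ) ^ (n + 1))) -
        (C:ℂ) ^ n * ((1 - (x:ℂ) ^ n) * (1 - s0 * conj S))) := by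
    rw [hu, ← hSS, hmain]
    ring
  have h1s : ‖(1:ℂ) - s0 * conj S‖ ≤ 2 := by
    refine (norm_sub_le _ _).trans ?_
    rw [norm_one, norm_mul, RCLike.norm_conj, Complex.norm_real, Real.norm_eq_abs, abs_of_nonneg hs0]
    nlinarith [norm_nonneg S]
  have hv : ‖conj S ^ n * (1 - s0 * conj S)‖ ≤ 2 := by
    rw [norm_mul, norm_pow, RCLike.norm_conj]
    calc ‖S‖ ^ n * ‖(1:ℂ) - s0 * conj S‖ ≤ 1 * 2 := by
          gcongr
          exact pow_le_one₀ (norm_nonneg _) hS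
      _ = 2 := by norm_num
  have hxn : ‖(1:ℂ) - (x:ℂ) ^ n‖ ≤ e := by
    have : (1:ℂ) - (x:ℂ) ^ n = ((1 - x ^ n : ℝ) : ℂ) := by push_cast; rfl
    rw [this, Complex.norm_real, Real.norm_eq_abs, abs_of_nonneg (by linarith), he']
    linarith
  have hxn1 : ‖(1:ℂ) - (x:ℂ) ^ (n + 1)‖ ≤ e := by
    have : (1:ℂ) - (x:ℂ) ^ (n + 1) = ((1 - x ^ (n + 1) : ℝ) : ℂ) := by push_cast; rfl
    rw [this, Complex.norm_real, Real.norm_eq_abs, abs_of_nonneg (by linarith), he']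
  have hmn : ‖main‖ ≤ 2 * ‖u‖ + 2 * ‖G‖ * e + 2 * e := by
    rw [hid]
    refine (norm_add_le _ _).trans ?_
    have ha : ‖u * (conj S ^ n * (1 - s0 * conj S))‖ ≤ 2 * ‖u‖ := by
      rw [norm_mul]
      nlinarith [norm_nonneg u]
    have hb : ‖(C:ℂ) ^ (n + 1) * (G * S * (1 - (x:ℂ) ^ n) - s0 * G * (1 - (x:ℂ) ^ (n + 1)))‖ ≤
        2 * ‖G‖ * e := by
      rw [norm_mul]
      have hb1 : ‖G * S * (1 - (x:ℂ) ^ n)‖ ≤ ‖G‖ * e := by
        rw [norm_mul, norm_mul]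
        calc ‖G‖ * ‖S‖ * ‖1 - (x:ℂ) ^ n‖ ≤ ‖G‖ * 1 * e := by gcongr
          _ = ‖G‖ * e := by ring
      have hb2 : ‖(s0:ℂ) * G * (1 - (x:ℂ) ^ (n + 1))‖ ≤ ‖G‖ * e := by
        rw [norm_mul, norm_mul, Complex.norm_real, Real.norm_eq_abs, abs_of_nonneg hs0]
        calc s0 * ‖G‖ * ‖1 - (x:ℂ) ^ (n + 1)‖ ≤ 1 * ‖G‖ * e := by gcongr
          _ = ‖G‖ * e := by ring
      have hb3 := norm_sub_le (G * S * (1 - (x:ℂ) ^ n)) (s0 * G * (1 - (x:ℂ) ^ (n + 1)))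
      calc ‖(C:ℂ) ^ (n + 1)‖ * ‖G * S * (1 - (x:ℂ) ^ n) - s0 * G * (1 - (x:ℂ) ^ (n + 1))‖
          ≤ 1 * (‖G‖ * e + ‖G‖ * e) := by
            gcongr
            linarith
        _ = 2 * ‖G‖ * e := by ring
    have hc : ‖(C:ℂ) ^ n * ((1 - (x:ℂ) ^ n) * (1 - s0 * conj S))‖ ≤ 2 * e := by
      rw [norm_mul, norm_mul]
      calc ‖(C:ℂ) ^ n‖ * (‖1 - (x:ℂ) ^ n‖ * ‖1 - s0 * conj S‖) ≤ 1 * (e * 2) := by gcongr
        _ = 2 * e := by ring
    have hd := norm_sub_le ((C:ℂ) ^ (n + 1) * (G * S * (1 - (x:ℂ) ^ n) -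
      s0 * G * (1 - (x:ℂ) ^ (n + 1)))) ((C:ℂ) ^ n * ((1 - (x:ℂ) ^ n) * (1 - s0 * conj S)))
    linarith
  have h3 : 2 * ‖u‖ ≤ δ + δ⁻¹ * ‖u‖ ^ 2 := by
    have h4 : 0 ≤ δ⁻¹ * (‖u‖ - δ) ^ 2 := by positivity
    have h5 : δ⁻¹ * (‖u‖ - δ) ^ 2 = δ⁻¹ * ‖u‖ ^ 2 - 2 * ‖u‖ + δ := by
      field_simp
      ring
    linarith
  have h6 : 2 * ‖G‖ * e ≤ κ * ‖G‖ ^ 2 + κ⁻¹ * e := by
    have h4 : 0 ≤ κ * (‖G‖ - κ⁻¹ * e) ^ 2 := by positivity
    have h5 : κ * (‖G‖ - κ⁻¹ * e) ^ 2 = κ * ‖G‖ ^ 2 - 2 * ‖G‖ * e + κ⁻¹ * e ^ 2 := by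
      field_simp
      ring
    have h7 : κ⁻¹ * e ^ 2 ≤ κ⁻¹ * e := by
      have : e ^ 2 ≤ e := by nlinarith
      gcongr
    linarith
  have h8 : -main.re ≤ ‖main‖ := by
    have := Complex.abs_re_le_norm main
    have := neg_abs_le main.re
    linarith
  rw [hre]
  linarith

theorem circle_bound {S g : ℂ → ℂ} {s0 C B δ κ : ℝ} (n : ℕ)
    (hS : DifferentiableOn ℂ S (Metric.ball 0 1)) (hS1 : ∀ η, ‖η‖ < 1 → ‖S η‖ ≤ 1)
    (hS0 : S 0 = s0) (hg : DifferentiableOn ℂ g (Metric.ball 0 1))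
    (hs0 : 0 ≤ s0) (hs1 : s0 ≤ 1) (hC0 : 0 < C) (hC1 : C ≤ 1) (hδ : 0 < δ) (hκ : 0 < κ)
    {r : ℝ} (hr0 : 0 < r) (hr : r < 1)
    (hgB : Real.circleAverage (fun η => ‖g η‖ ^ 2) 0 r ≤ B)
    (hu : Real.circleAverage (fun η => ‖g η * (C * S η) ^ (n + 1) - (C * S η) ^ n‖ ^ 2) 0 r
      ≤ δ ^ 2) :
    C ^ n * (1 - s0 ^ 2) ≤ 2 * δ + κ * B + (κ⁻¹ + 2) *
      Real.circleAverage (fun η => 1 - ‖S η‖ ^ (2 * n + 2)) 0 r := by
  have hsub : Metric.closedBall (0:ℂ) |r| ⊆ Metric.ball 0 1 := by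
    intro z hz
    rw [mem_closedBall_zero_iff, abs_of_pos hr0] at hz
    rw [mem_ball_zero_iff]
    linarith
  have hsph : Metric.sphere (0:ℂ) |r| ⊆ Metric.ball 0 1 :=
    Metric.sphere_subset_closedBall.trans hsub
  let M : ℂ → ℂ := fun η =>
    (C:ℂ) ^ (n + 1) * (g η * S η - s0 * g η) - (C:ℂ) ^ n + (C:ℂ) ^ n * s0 * S η
  have hM : DifferentiableOn ℂ M (Metric.ball 0 1) := by
    intro z hz
    have h1 := hS z hz
    have h2 := hg z hz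
    simp only [M]
    fun_prop
  have hMavg : Real.circleAverage M 0 r = M 0 := by
    refine DiffContOnCl.circleAverage ?_
    refine DifferentiableOn.diffContOnCl ?_
    refine hM.mono ?_
    exact (closure_minimal Metric.ball_subset_closedBall Metric.isClosed_closedBall).trans hsub
  have hMcont : ContinuousOn M (Metric.sphere 0 |r|) := hM.continuousOn.mono hsph
  have hScont : ContinuousOn S (Metric.sphere 0 |r|) := hS.continuousOn.mono hsph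
  have hgcont : ContinuousOn g (Metric.sphere 0 |r|) := hg.continuousOn.mono hsph
  have hM0 : (M 0).re = -(C ^ n * (1 - s0 ^ 2)) := by
    have : M 0 = ((-(C ^ n * (1 - s0 ^ 2)) : ℝ) : ℂ) := by
      simp only [M, hS0]
      push_cast
      ring
    rw [this, Complex.ofReal_re]
  have hre : Real.circleAverage (fun η => -(M η).re) 0 r = C ^ n * (1 - s0 ^ 2) := by
    have h1 := (-Complex.reCLM).circleAverage_comp_comm (hMcont.circleIntegrable' )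
    have h2 : (⇑(-Complex.reCLM) ∘ M) = fun η => -(M η).re := by
      funext η; simp
    rw [h2, hMavg] at h1
    rw [h1]
    simp [hM0]
  rw [← hre]
  have hmono : Real.circleAverage (fun η => -(M η).re) 0 r ≤
      Real.circleAverage (fun η => (δ + δ⁻¹ * ‖g η * (C * S η) ^ (n + 1) - (C * S η) ^ n‖ ^ 2) +
        (κ * ‖g η‖ ^ 2 + (κ⁻¹ + 2) * (1 - ‖S η‖ ^ (2 * n + 2)))) 0 r := by
    refine Real.circleAverage_mono ?_ ?_ ?_
    · refine ContinuousOn.circleIntegrable' ?_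
      exact (Complex.continuous_re.comp_continuousOn hMcont).neg
    · refine ContinuousOn.circleIntegrable' ?_
      fun_prop
    · intro η hη
      have hη1 : ‖η‖ < 1 := mem_ball_zero_iff.mp (hsph hη)
      have := pointwise_bound (g η) (S η) _ C s0 δ κ n hC0 hC1 hs0 hs1 hδ hκ (hS1 η hη1) rfl
      simp only [M]
      linarith
  refine hmono.trans ?_
  have e1 : CircleIntegrable (fun η => δ + δ⁻¹ * ‖g η * (C * S η) ^ (n + 1) - (C * S η) ^ n‖ ^ 2)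
      0 r := ContinuousOn.circleIntegrable' (by fun_prop)
  have e2 : CircleIntegrable (fun η => κ * ‖g η‖ ^ 2 + (κ⁻¹ + 2) * (1 - ‖S η‖ ^ (2 * n + 2)))
      0 r := ContinuousOn.circleIntegrable' (by fun_prop)
  have e3 : CircleIntegrable (fun η => κ * ‖g η‖ ^ 2) 0 r :=
    ContinuousOn.circleIntegrable' (by fun_prop)
  have e4 : CircleIntegrable (fun η => (κ⁻¹ + 2) * (1 - ‖S η‖ ^ (2 * n + 2))) 0 r :=
    ContinuousOn.circleIntegrable' (by fun_prop)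
  have e5 : CircleIntegrable (fun η => δ⁻¹ * ‖g η * (C * S η) ^ (n + 1) - (C * S η) ^ n‖ ^ 2)
      0 r := ContinuousOn.circleIntegrable' (by fun_prop)
  have e6 : CircleIntegrable (fun _ : ℂ => δ) 0 r :=
    ContinuousOn.circleIntegrable' (by fun_prop)
  rw [Real.circleAverage_fun_add e1 e2, Real.circleAverage_fun_add e6 e5,
    Real.circleAverage_fun_add e3 e4, Real.circleAverage_const]
  have s1 : Real.circleAverage
      (fun η => δ⁻¹ * ‖g η * (C * S η) ^ (n + 1) - (C * S η) ^ n‖ ^ 2) 0 r =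
      δ⁻¹ * Real.circleAverage (fun η => ‖g η * (C * S η) ^ (n + 1) - (C * S η) ^ n‖ ^ 2) 0 r :=
    Real.circleAverage_fun_smul (a := δ⁻¹)
      (f := fun η => ‖g η * (C * S η) ^ (n + 1) - (C * S η) ^ n‖ ^ 2)
  have s2 : Real.circleAverage (fun η => κ * ‖g η‖ ^ 2) 0 r =
      κ * Real.circleAverage (fun η => ‖g η‖ ^ 2) 0 r :=
    Real.circleAverage_fun_smul (a := κ) (f := fun η => ‖g η‖ ^ 2)
  have s3 : Real.circleAverage (fun η => (κ⁻¹ + 2) * (1 - ‖S η‖ ^ (2 * n + 2))) 0 r =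
      (κ⁻¹ + 2) * Real.circleAverage (fun η => 1 - ‖S η‖ ^ (2 * n + 2)) 0 r :=
    Real.circleAverage_fun_smul (a := κ⁻¹ + 2) (f := fun η => 1 - ‖S η‖ ^ (2 * n + 2))
  rw [s1, s2, s3]
  have t1 : δ⁻¹ * Real.circleAverage
      (fun η => ‖g η * (C * S η) ^ (n + 1) - (C * S η) ^ n‖ ^ 2) 0 r ≤ δ := by
    calc _ ≤ δ⁻¹ * δ ^ 2 := by gcongr
      _ = δ := by field_simp
  have t2 : κ * Real.circleAverage (fun η => ‖g η‖ ^ 2) 0 r ≤ κ * B := by gcongr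
  linarith

theorem main_bound {S g : ℂ → ℂ} {s0 C B δ : ℝ} (n : ℕ)
    (hS : DifferentiableOn ℂ S (Metric.ball 0 1)) (hS1 : ∀ η, ‖η‖ < 1 → ‖S η‖ ≤ 1)
    (hS0 : S 0 = s0) (hg : DifferentiableOn ℂ g (Metric.ball 0 1))
    (hs0 : 0 ≤ s0) (hs1 : s0 ≤ 1) (hC0 : 0 < C) (hC1 : C ≤ 1) (hδ : 0 < δ)
    (hbd : ∀ᵐ s : ℝ, s ∈ Set.uIoc 0 (2 * Real.pi) →
      Tendsto (fun r : ℝ => ‖S (circleMap 0 r s)‖) (𝓝[<] 1) (𝓝 1))
    (hgB : ∀ r : ℝ, 0 < r → r < 1 → Real.circleAverage (fun η => ‖g η‖ ^ 2) 0 r ≤ B)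
    (hu : ∀ r : ℝ, 0 < r → r < 1 →
      Real.circleAverage (fun η => ‖g η * (C * S η) ^ (n + 1) - (C * S η) ^ n‖ ^ 2) 0 r ≤ δ ^ 2) :
    C ^ n * (1 - s0 ^ 2) ≤ 2 * δ := by
  have hev : ∀ᶠ r : ℝ in 𝓝[<] 1, 0 < r ∧ r < 1 := by
    have h1 : ∀ᶠ r : ℝ in 𝓝[<] 1, 0 < r :=
      mem_nhdsWithin_of_mem_nhds (lt_mem_nhds one_pos)
    have h2 : ∀ᶠ r : ℝ in 𝓝[<] 1, r < 1 := self_mem_nhdsWithin
    exact h1.and h2
  have he : Tendsto (fun r : ℝ => Real.circleAverage (fun η => 1 - ‖S η‖ ^ (2 * n + 2)) 0 r)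
      (𝓝[<] 1) (𝓝 0) := by
    have h0 : (0:ℝ) = (2 * Real.pi)⁻¹ • ∫ _ in (0:ℝ)..2 * Real.pi, (0:ℝ) := by simp
    rw [h0]
    unfold Real.circleAverage
    refine Tendsto.const_smul ?_ _
    refine intervalIntegral.tendsto_integral_filter_of_dominated_convergence
      (fun _ => 1) ?_ ?_ ?_ ?_
    · filter_upwards [hev] with r hr
      have hcont : Continuous fun θ : ℝ => 1 - ‖S (circleMap 0 r θ)‖ ^ (2 * n + 2) := by
        have h1 : Continuous fun θ : ℝ => S (circleMap 0 r θ) := by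
          refine hS.continuousOn.comp_continuous (continuous_circleMap 0 r) fun θ => ?_
          rw [mem_ball_zero_iff]
          simp [circleMap, abs_of_pos hr.1, hr.2]
        exact continuous_const.sub (h1.norm.pow _)
      exact hcont.aestronglyMeasurable
    · filter_upwards [hev] with r hr
      refine Eventually.of_forall fun θ _ => ?_
      have h1 : ‖S (circleMap 0 r θ)‖ ≤ 1 := by
        refine hS1 _ ?_
        simp [circleMap, abs_of_pos hr.1, hr.2]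
      have h2 : ‖S (circleMap 0 r θ)‖ ^ (2 * n + 2) ≤ 1 := pow_le_one₀ (norm_nonneg _) h1
      have h3 : 0 ≤ ‖S (circleMap 0 r θ)‖ ^ (2 * n + 2) := by positivity
      rw [Real.norm_of_nonneg (by linarith)]
      linarith
    · exact intervalIntegrable_const
    · filter_upwards [hbd] with θ hθ hmem
      have h1 := (hθ hmem).pow (2 * n + 2)
      have h2 := h1.const_sub 1
      simpa using h2
  have hκ : ∀ κ : ℝ, 0 < κ → C ^ n * (1 - s0 ^ 2) ≤ 2 * δ + κ * B := by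
    intro κ hκ
    have h1 : Tendsto (fun r : ℝ => 2 * δ + κ * B + (κ⁻¹ + 2) *
      Real.circleAverage (fun η => 1 - ‖S η‖ ^ (2 * n + 2)) 0 r) (𝓝[<] 1)
      (𝓝 (2 * δ + κ * B + (κ⁻¹ + 2) * 0)) := (he.const_mul _).const_add _
    rw [mul_zero, add_zero] at h1
    refine ge_of_tendsto h1 ?_
    filter_upwards [hev] with r hr
    exact circle_bound n hS hS1 hS0 hg hs0 hs1 hC0 hC1 hδ hκ hr.1 hr.2 (hgB r hr.1 hr.2)
      (hu r hr.1 hr.2)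
  have h2 : Tendsto (fun κ : ℝ => 2 * δ + κ * B) (𝓝[>] 0) (𝓝 (2 * δ + 0 * B)) := by
    refine Tendsto.mono_left ?_ nhdsWithin_le_nhds
    exact (tendsto_id.mul_const B).const_add _
  rw [zero_mul, add_zero] at h2
  refine ge_of_tendsto h2 ?_
  filter_upwards [self_mem_nhdsWithin] with κ hκ0
  exact hκ κ hκ0

end Pool.Agent.H55DA
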