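import Pool.Agent.H55DA.Basic

/-! The Hardy space of the disc as `ℓ²`, with its kernel vectors. -/

open scoped InnerProductSpace ComplexConjugate
open MeasureTheory Filter Topology

namespace Pool.Agent.H55DA

/-- The Hilbert space `ℓ²(ℕ)`. -/
noncomputable abbrev E2 := lp (fun _ : ℕ => ℂ) 2

theorem kDfun_memlp {η : ℂ} (hη : ‖η‖ < 1) : Memℓp (fun n : ℕ => (conj η) ^ n) 2 := by
  refine memℓp_gen ?_
  have h1 : ‖η‖ ^ 2 < 1 := by
    have := norm_nonneg η
    nlinarith
  refine (summable_geometric_of_lt_one (by positivity) h1).congr fun n => ?_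
  rw [norm_pow, RCLike.norm_conj]
  simp only [ENNReal.toReal_ofNat]
  rw [← pow_mul]
  norm_cast
  rw [← pow_mul, mul_comm]

/-- The kernel vector of the Hardy space at `η`. -/
noncomputable def kD (η : Metric.ball (0 : ℂ) 1) : E2 :=
  ⟨fun n => (conj η.1) ^ n, kDfun_memlp (mem_ball_zero_iff.mp η.2)⟩

theorem kD_apply (η : Metric.ball (0 : ℂ) 1) (n : ℕ) : kD η n = (conj η.1) ^ n := rfl

theorem inner_kD_kD (η ζ : Metric.ball (0 : ℂ) 1) :
    ⟪kD η, kD ζ⟫_ℂ = (1 - conj ζ.1 * η.1)⁻¹ := by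
  have hη : ‖η.1‖ < 1 := mem_ball_zero_iff.mp η.2
  have hζ : ‖ζ.1‖ < 1 := mem_ball_zero_iff.mp ζ.2
  have h1 := lp.hasSum_inner (𝕜 := ℂ) (kD η) (kD ζ)
  have hx : ‖conj ζ.1 * η.1‖ < 1 := by
    rw [norm_mul, RCLike.norm_conj]
    have h0 := norm_nonneg η.1
    have h0' := norm_nonneg ζ.1
    nlinarith
  have h2 := hasSum_geometric_of_norm_lt_one hx
  refine h1.unique ?_
  convert h2 using 2 with n
  rw [kD_apply, kD_apply]
  simp only [RCLike.inner_apply, map_pow, Complex.conj_conj, mul_pow]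

theorem hasSum_inner_kD (η : Metric.ball (0 : ℂ) 1) (b : E2) :
    HasSum (fun n => b n * η.1 ^ n) ⟪kD η, b⟫_ℂ := by
  have h1 := lp.hasSum_inner (𝕜 := ℂ) (kD η) b
  have h2 : (fun n => ⟪kD η n, b n⟫_ℂ) = fun n => b n * η.1 ^ n := by
    funext n
    rw [kD_apply]
    simp only [RCLike.inner_apply, map_pow, Complex.conj_conj]
  rw [h2] at h1
  exact h1

/-- `g` is represented by the vector `b`. -/
def Rep (g : ℂ → ℂ) (b : E2) : Prop := ∀ η : Metric.ball (0 : ℂ) 1, ⟪kD η, b⟫_ℂ = g η.1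

theorem Rep.hasSum {g : ℂ → ℂ} {b : E2} (h : Rep g b) {η : ℂ} (hη : ‖η‖ < 1) :
    HasSum (fun n => b n * η ^ n) (g η) := by
  have := hasSum_inner_kD ⟨η, mem_ball_zero_iff.mpr hη⟩ b
  rw [h] at this
  exact this

theorem norm_term_le (b : E2) {η : ℂ} {ρ : ℝ} (hη : ‖η‖ ≤ ρ) (n : ℕ) :
    ‖b n * η ^ n‖ ≤ ‖b‖ * ρ ^ n := by
  rw [norm_mul, norm_pow]
  have h1 : ‖b n‖ ≤ ‖b‖ := lp.norm_apply_le_norm (by norm_num) b n
  gcongr

theorem Rep.differentiableOn {g : ℂ → ℂ} {b : E2} (h : Rep g b) :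
    DifferentiableOn ℂ g (Metric.ball 0 1) := by
  intro η hη
  rw [mem_ball_zero_iff] at hη
  obtain ⟨ρ, hρ1, hρ2⟩ := exists_between hη
  have hρ0 : 0 ≤ ρ := (norm_nonneg _).trans hρ1.le
  have h1 : DifferentiableOn ℂ (fun w => ∑' n, b n * w ^ n) (Metric.ball 0 ρ) := by
    refine Complex.differentiableOn_tsum_of_summable_norm (u := fun n => ‖b‖ * ρ ^ n)
      ((summable_geometric_of_lt_one hρ0 hρ2).mul_left _) ?_ Metric.isOpen_ball ?_
    · intro n
      fun_prop
    · intro n w hw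
      rw [mem_ball_zero_iff] at hw
      exact norm_term_le b hw.le n
  have hmem : η ∈ Metric.ball (0:ℂ) ρ := mem_ball_zero_iff.mpr hρ1
  have h2 : DifferentiableAt ℂ (fun w => ∑' n, b n * w ^ n) η :=
    h1.differentiableAt (Metric.isOpen_ball.mem_nhds hmem)
  refine DifferentiableAt.differentiableWithinAt ?_
  refine h2.congr_of_eventuallyEq ?_
  filter_upwards [Metric.isOpen_ball.mem_nhds hmem] with w hw
  rw [mem_ball_zero_iff] at hw
  exact (h.hasSum (hw.trans hρ2)).tsum_eq.symm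

theorem Rep.circle_le {g : ℂ → ℂ} {b : E2} (h : Rep g b) {r : ℝ} (hr0 : 0 < r) (hr : r < 1) :
    Real.circleAverage (fun η => ‖g η‖ ^ 2) 0 r ≤ ‖b‖ ^ 2 := by
  let P : ℕ → Polynomial ℂ := fun N => ∑ n ∈ Finset.range N, Polynomial.monomial n (b n * r ^ n)
  have hPc : ∀ N n, (P N).coeff n = if n < N then b n * r ^ n else 0 := by
    intro N n
    simp only [P, Polynomial.finsetSum_coeff, Polynomial.coeff_monomial]
    rw [Finset.sum_ite_eq']
    simp
  have hPe : ∀ N z, (P N).eval z = ∑ n ∈ Finset.range N, b n * (r * z) ^ n := by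
    intro N z
    simp only [P, Polynomial.eval_finsetSum, Polynomial.eval_monomial, mul_pow, mul_assoc]
  have h1 : ∀ N, Real.circleAverage (fun z => ‖(P N).eval z‖ ^ 2) 0 1 ≤ ‖b‖ ^ 2 := by
    intro N
    rw [← Polynomial.sum_sq_norm_coeff_eq_circleAverage]
    have h2 : HasSum (fun n => ‖b n‖ ^ 2) (‖b‖ ^ 2) := by
      have := lp.hasSum_norm (p := 2) (by norm_num) b
      simpa using this
    refine le_trans (Finset.sum_le_sum fun n _ => ?_) (sum_le_hasSum (P N).support
      (fun n _ => by positivity) h2)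
    rw [hPc]
    split_ifs
    · have h3 : ‖b n * (r : ℂ) ^ n‖ ≤ ‖b n‖ := by
        rw [norm_mul, norm_pow, Complex.norm_real, Real.norm_eq_abs, abs_of_pos hr0]
        exact mul_le_of_le_one_right (norm_nonneg _) (pow_le_one₀ hr0.le hr.le)
      gcongr
    · simp
  have h2 : Tendsto (fun N => Real.circleAverage (fun z => ‖(P N).eval z‖ ^ 2) 0 1) atTop
      (𝓝 (Real.circleAverage (fun η => ‖g η‖ ^ 2) 0 r)) := by
    unfold Real.circleAverage
    refine Tendsto.const_smul ?_ _
    refine intervalIntegral.tendsto_integral_filter_of_dominated_convergence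
      (fun _ => (‖b‖ * (1 - r)⁻¹) ^ 2) ?_ ?_ ?_ ?_
    · refine Eventually.of_forall fun N => ?_
      have : Continuous fun θ : ℝ => ‖(P N).eval (circleMap 0 1 θ)‖ ^ 2 := by
        have h3 := (P N).continuous
        fun_prop
      exact this.aestronglyMeasurable
    · refine Eventually.of_forall fun N => Eventually.of_forall fun θ _ => ?_
      rw [Real.norm_of_nonneg (by positivity)]
      have h3 : ‖(P N).eval (circleMap 0 1 θ)‖ ≤ ‖b‖ * (1 - r)⁻¹ := by
        rw [hPe]
        refine (norm_sum_le _ _).trans ?_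
        have h4 : ∀ n ∈ Finset.range N, ‖b n * ((r:ℂ) * circleMap 0 1 θ) ^ n‖ ≤ ‖b‖ * r ^ n := by
          intro n _
          refine norm_term_le b ?_ n
          rw [norm_mul, Complex.norm_real, Real.norm_eq_abs, abs_of_pos hr0]
          simp [circleMap]
        refine (Finset.sum_le_sum h4).trans ?_
        rw [← Finset.mul_sum, ← tsum_geometric_of_lt_one hr0.le hr]
        gcongr
        exact (summable_geometric_of_lt_one hr0.le hr).sum_le_tsum _ fun n _ => by positivity
      exact pow_le_pow_left₀ (norm_nonneg _) h3 2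
    · exact intervalIntegrable_const
    · refine Eventually.of_forall fun θ _ => ?_
      have h3 : ‖circleMap 0 r θ‖ < 1 := by
        simp [circleMap, abs_of_pos hr0, hr]
      have h4 := (h.hasSum h3).tendsto_sum_nat
      have h5 : ∀ N, (P N).eval (circleMap 0 1 θ) =
          ∑ n ∈ Finset.range N, b n * (circleMap 0 r θ) ^ n := by
        intro N
        rw [hPe]
        congr 1
        funext n
        simp [circleMap]
      simp only [h5]
      exact (h4.norm.pow 2)
  exact le_of_tendsto' h2 h1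

end Pool.Agent.H55DA
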