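import Pool.Agent.H55DA.Herglotz

/-! The multiplier `f = exp (-h)`, where `h` is a Herglotz integral over the points
`p t = (3/5, (4/5) e^{it})`. -/

open scoped InnerProductSpace ComplexConjugate
open Finset MeasureTheory

namespace Pool.Agent.H55DA

section
variable {X : Type*} {H : Type*} [NormedAddCommGroup H] [InnerProductSpace ℂ H]

theorem accretive_integral (K : X → H) {T : Type*} [MeasurableSpace T] (τ : Measure T)
    (k : T → X → ℂ) (hk : ∀ t, Accretive K (k t)) (hint : ∀ x, Integrable (fun t => k t x) τ) :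
    Accretive K (fun x => ∫ t, k t x ∂τ) := by
  intro s c
  set S := ∑ i ∈ s, c i • K i with hS
  have h1 : ∀ g : X → ℂ, ⟪S, ∑ i ∈ s, (c i * conj (g i)) • K i⟫_ℂ =
      ∑ i ∈ s, (c i * ⟪S, K i⟫_ℂ) * conj (g i) := by
    intro g
    rw [inner_sum]
    refine Finset.sum_congr rfl fun i _ => ?_
    rw [inner_smul_right]
    ring
  rw [h1]
  have h2 : ∑ i ∈ s, (c i * ⟪S, K i⟫_ℂ) * conj (∫ t, k t i ∂τ) =
      ∫ t, ∑ i ∈ s, (c i * ⟪S, K i⟫_ℂ) * conj (k t i) ∂τ := by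
    rw [integral_finsetSum]
    · refine Finset.sum_congr rfl fun i _ => ?_
      rw [← integral_conj, integral_const_mul]
    · intro i _
      refine Integrable.const_mul ?_ _
      exact (LinearIsometryEquiv.integrable_comp_iff RCLike.conjLIE).mpr (hint i)
  rw [h2]
  have h3 : Integrable (fun t => ∑ i ∈ s, (c i * ⟪S, K i⟫_ℂ) * conj (k t i)) τ := by
    refine integrable_finsetSum _ fun i _ => ?_
    refine Integrable.const_mul ?_ _
    exact (LinearIsometryEquiv.integrable_comp_iff RCLike.conjLIE).mpr (hint i)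
  have h4 := Complex.reCLM.integral_comp_comm h3
  have h5 : (∫ t, ∑ i ∈ s, (c i * ⟪S, K i⟫_ℂ) * conj (k t i) ∂τ).re =
    ∫ t, (∑ i ∈ s, (c i * ⟪S, K i⟫_ℂ) * conj (k t i)).re ∂τ := h4.symm
  rw [h5]
  refine integral_nonneg fun t => ?_
  have := hk t s c
  rw [← hS, h1] at this
  exact this

end

variable {d : ℕ} (i₀ i₁ : Fin d)

/-- The curve `q w = (3/5) e_{i₀} + (4/5) w e_{i₁}`. -/
noncomputable def q (w : ℂ) : Cd d :=
  EuclideanSpace.single i₀ (3 / 5 : ℂ) + EuclideanSpace.single i₁ ((4 / 5 : ℂ) * w)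

theorem inner_q (h : i₀ ≠ i₁) (w z : ℂ) :
    ⟪q i₀ i₁ w, q i₀ i₁ z⟫_ℂ = 9 / 25 + 16 / 25 * (conj w * z) := by
  unfold q
  simp only [inner_add_left, inner_add_right,
    EuclideanSpace.inner_single_right, PiLp.single_apply, map_mul, map_div₀, h, h.symm,
    if_true, if_false, map_ofNat, map_zero]
  ring

theorem norm_sq_q (h : i₀ ≠ i₁) (w : ℂ) : ‖q i₀ i₁ w‖ ^ 2 = 9 / 25 + 16 / 25 * ‖w‖ ^ 2 := by
  have h1 := inner_self_eq_norm_sq_to_K (𝕜 := ℂ) (q i₀ i₁ w)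
  rw [inner_q i₀ i₁ h, Complex.conj_mul'] at h1
  have h2 : ((9 / 25 + 16 / 25 * ‖w‖ ^ 2 : ℝ) : ℂ) = ((‖q i₀ i₁ w‖ ^ 2 : ℝ) : ℂ) := by
    push_cast
    exact h1
  exact_mod_cast h2.symm

/-- Points of the curve on the sphere. -/
noncomputable def pt (t : ℝ) : Cd d := q i₀ i₁ (Complex.exp (t * Complex.I))

theorem norm_pt (h : i₀ ≠ i₁) (t : ℝ) : ‖pt i₀ i₁ t‖ = 1 := by
  have h1 := norm_sq_q i₀ i₁ h (Complex.exp (t * Complex.I))
  rw [Complex.norm_exp_ofReal_mul_I] at h1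
  have h2 : ‖pt i₀ i₁ t‖ ^ 2 = 1 := by
    unfold pt
    rw [h1]; norm_num
  have h3 := norm_nonneg (pt i₀ i₁ t)
  nlinarith

theorem continuous_pt : Continuous (pt i₀ i₁ : ℝ → Cd d) := by
  have h1 : Continuous fun t : ℝ => (4 / 5 : ℂ) * Complex.exp (t * Complex.I) := by fun_prop
  have h2 : Continuous fun t : ℝ =>
      (EuclideanSpace.single i₁ ((4 / 5 : ℂ) * Complex.exp (t * Complex.I)) : Cd d) := by
    have h3 : (fun t : ℝ =>
      (EuclideanSpace.single i₁ ((4 / 5 : ℂ) * Complex.exp (t * Complex.I)) : Cd d)) =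
      fun t : ℝ => ((4 / 5 : ℂ) * Complex.exp (t * Complex.I)) •
        (EuclideanSpace.single i₁ (1 : ℂ) : Cd d) := by
      funext t
      ext j
      simp
    rw [h3]
    exact h1.smul continuous_const
  exact continuous_const.add h2

theorem norm_kp_le {p z : Cd d} (hp : ‖p‖ = 1) (hz : ‖z‖ < 1) : ‖kp p z‖ ≤ 2 / (1 - ‖z‖) := by
  have h1 : ‖⟪p, z⟫_ℂ‖ ≤ ‖z‖ := by
    have := norm_inner_le_norm (𝕜 := ℂ) p z
    rwa [hp, one_mul] at this
  have h2 : 1 - ‖z‖ ≤ ‖1 - ⟪p, z⟫_ℂ‖ := by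
    have := norm_sub_norm_le (1 : ℂ) ⟪p, z⟫_ℂ
    rw [norm_one] at this
    linarith
  have h3 : ‖1 + ⟪p, z⟫_ℂ‖ ≤ 2 := by
    have := norm_add_le (1 : ℂ) ⟪p, z⟫_ℂ
    rw [norm_one] at this
    linarith
  have h4 : 0 < 1 - ‖z‖ := by linarith
  unfold kp
  rw [norm_div]
  gcongr

variable (τ : Measure ℝ)

/-- `h(z) = ∫ (1 + ⟨z, p t⟩) / (1 - ⟨z, p t⟩) dτ(t)`. -/
noncomputable def hfun (z : Cd d) : ℂ := ∫ t, kp (pt i₀ i₁ t) z ∂τ

/-- `f = exp (-h)`. -/
noncomputable def ffun (z : Cd d) : ℂ := Complex.exp (-hfun i₀ i₁ τ z)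

theorem continuous_kp_pt (h : i₀ ≠ i₁) {z : Cd d} (hz : ‖z‖ < 1) :
    Continuous fun t => kp (pt i₀ i₁ t) z := by
  have h1 : Continuous fun t => ⟪pt i₀ i₁ t, z⟫_ℂ :=
    (continuous_pt i₀ i₁).inner continuous_const
  refine Continuous.div (continuous_const.add h1) (continuous_const.sub h1) fun t => ?_
  exact one_sub_ne (inner_lt (norm_pt i₀ i₁ h t) hz)

theorem integrable_kp_pt (h : i₀ ≠ i₁) [IsProbabilityMeasure τ] {z : Cd d} (hz : ‖z‖ < 1) :
    Integrable (fun t => kp (pt i₀ i₁ t) z) τ := by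
  refine Integrable.of_bound (continuous_kp_pt i₀ i₁ h hz).aestronglyMeasurable
    (2 / (1 - ‖z‖)) ?_
  exact Filter.Eventually.of_forall fun t => norm_kp_le (norm_pt i₀ i₁ h t) hz

theorem accretive_hfun (h : i₀ ≠ i₁) [IsProbabilityMeasure τ] :
    Accretive (ker (d := d)) (fun z => hfun i₀ i₁ τ z.1) := by
  refine accretive_integral (ker (d := d)) τ (fun t z => kp (pt i₀ i₁ t) z.1) ?_ ?_
  · intro t
    exact accretive_kp (norm_pt i₀ i₁ h t)
  · intro z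
    exact integrable_kp_pt i₀ i₁ τ h (mem_ball_zero_iff.mp z.2)

theorem ffun_mem_Mult (h : i₀ ≠ i₁) [IsProbabilityMeasure τ] : ffun i₀ i₁ τ ∈ Mult d := by
  intro g hg
  rw [mem_DA_iff] at hg
  obtain ⟨u, hu⟩ := hg
  obtain ⟨G, -, hG⟩ := exists_mul (ker (d := d)) (fun z => Complex.exp (-hfun i₀ i₁ τ z.1))
    (contraction_of_accretive _ _ (accretive_hfun i₀ i₁ τ h)) u
  refine mem_DA_of_vec G fun z => ?_
  rw [hG z, hu z]
  rfl

end Pool.Agent.H55DA
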