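import Pool.Agent.H55DA.Space

/-! Functions `exp (-h)` with `h` in the Herglotz class of the Drury-Arveson kernel are contractive
multipliers. -/

open scoped InnerProductSpace ComplexConjugate
open Finset MeasureTheory

namespace Pool.Agent.H55DA

variable {X : Type*} {H : Type*} [NormedAddCommGroup H] [InnerProductSpace ℂ H]

/-- The Herglotz condition for `h` with respect to the kernel family `K`. -/
def Accretive (K : X → H) (h : X → ℂ) : Prop :=
  ∀ (s : Finset X) (c : X → ℂ),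
    0 ≤ (⟪∑ i ∈ s, c i • K i, ∑ i ∈ s, (c i * conj (h i)) • K i⟫_ℂ).re

theorem contraction_of_accretive (K : X → H) (h : X → ℂ) (hh : Accretive K h)
    (s : Finset X) (c : X → ℂ) :
    ‖∑ i ∈ s, c i • (conj (Complex.exp (-h i)) • K i)‖ ≤ ‖∑ i ∈ s, c i • K i‖ := by
  let V : ℝ → H := fun x => ∑ i ∈ s, (c i * Complex.exp (-(x : ℂ) * conj (h i))) • K i
  let V' : ℝ → H := fun x =>
    ∑ i ∈ s, (c i * (Complex.exp (-(x : ℂ) * conj (h i)) * (-conj (h i)))) • K i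
  have hV : ∀ x, HasDerivAt V (V' x) x := by
    intro x
    refine HasDerivAt.fun_sum fun i _ => ?_
    refine HasDerivAt.smul_const ?_ (K i)
    refine HasDerivAt.const_mul (c i) ?_
    have h1 : HasDerivAt (fun x : ℝ => -(x : ℂ) * conj (h i)) (-conj (h i)) x := by
      have := (Complex.ofRealCLM.hasDerivAt (x := x)).neg.mul_const (conj (h i))
      simpa using this
    exact h1.cexp
  have hF : ∀ x, HasDerivAt (fun x => ‖V x‖ ^ 2) (2 * (⟪V x, V' x⟫_ℂ).re) x := by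
    intro x
    have h1 := (hV x).inner ℂ (hV x)
    have h2 : HasDerivAt (fun x => (⟪V x, V x⟫_ℂ).re) (⟪V x, V' x⟫_ℂ + ⟪V' x, V x⟫_ℂ).re x :=
      (Complex.reCLM.hasFDerivAt.comp_hasDerivAt x h1)
    have h3 : (fun x => (⟪V x, V x⟫_ℂ).re) = fun x => ‖V x‖ ^ 2 := by
      funext x
      rw [inner_self_eq_norm_sq_to_K]
      norm_cast
    rw [h3] at h2
    convert h2 using 1
    rw [Complex.add_re, ← inner_conj_symm (V' x) (V x), Complex.conj_re]
    ring
  have hneg : ∀ x, 2 * (⟪V x, V' x⟫_ℂ).re ≤ 0 := by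
    intro x
    have h1 := hh s (fun i => c i * Complex.exp (-(x : ℂ) * conj (h i)))
    have h2 : V' x = -∑ i ∈ s,
        ((c i * Complex.exp (-(x : ℂ) * conj (h i))) * conj (h i)) • K i := by
      simp only [V', ← Finset.sum_neg_distrib, ← neg_smul]
      refine Finset.sum_congr rfl fun i _ => ?_
      congr 1
      ring
    rw [h2, inner_neg_right, Complex.neg_re]
    simp only [V]
    linarith
  have hanti : Antitone (fun x => ‖V x‖ ^ 2) :=
    antitone_of_hasDerivAt_nonpos hF hneg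
  have h01 := hanti (zero_le_one)
  simp only at h01
  have h0 : V 0 = ∑ i ∈ s, c i • K i := by simp [V]
  have h1 : V 1 = ∑ i ∈ s, c i • (conj (Complex.exp (-h i)) • K i) := by
    simp only [V]
    refine Finset.sum_congr rfl fun i _ => ?_
    rw [smul_smul, ← Complex.exp_conj]
    simp
  rw [h0, h1] at h01
  exact (pow_le_pow_iff_left₀ (norm_nonneg _) (norm_nonneg _) two_ne_zero).mp h01

/-- The elementary Herglotz functions `(1 + ⟨z,p⟩) / (1 - ⟨z,p⟩)`. -/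
noncomputable def kp {d : ℕ} (p z : Cd d) : ℂ := (1 + ⟪p, z⟫_ℂ) / (1 - ⟪p, z⟫_ℂ)

theorem inner_lt {d : ℕ} {p z : Cd d} (hp : ‖p‖ = 1) (hz : ‖z‖ < 1) : ‖⟪p, z⟫_ℂ‖ < 1 := by
  have := norm_inner_le_norm (𝕜 := ℂ) p z
  rw [hp, one_mul] at this
  linarith

theorem one_sub_ne {w : ℂ} (hw : ‖w‖ < 1) : 1 - w ≠ 0 := by
  intro h
  have : w = 1 := by linear_combination -h
  rw [this] at hw
  simp at hw

theorem accretive_kp {d : ℕ} {p : Cd d} (hp : ‖p‖ = 1) :
    Accretive (ker (d := d)) (fun z => kp p z.1) := by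
  intro s c
  set K := ker (d := d) with hKdef
  let g : Metric.ball (0 : Cd d) 1 → ℂ := fun z => ⟪p, z.1⟫_ℂ
  have hg : ∀ z, 1 - g z ≠ 0 := fun z =>
    one_sub_ne (inner_lt hp (mem_ball_zero_iff.mp z.2))
  have hg' : ∀ z, 1 - conj (g z) ≠ 0 := fun z h => hg z (by
    have := congrArg conj h
    simpa using this)
  let Q : Metric.ball (0 : Cd d) 1 → Cd d := fun z => z.1 - g z • p
  have hQ : ∀ z w, ⟪Q w, Q z⟫_ℂ = ⟪w.1, z.1⟫_ℂ - g z * conj (g w) := by
    intro z w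
    simp only [Q, inner_sub_left, inner_sub_right, inner_smul_left, inner_smul_right]
    have h1 : ⟪p, p⟫_ℂ = 1 := by rw [inner_self_eq_norm_sq_to_K, hp]; simp
    have h2 : ⟪w.1, p⟫_ℂ = conj (g w) := by simp only [g]; rw [inner_conj_symm]
    have h3 : ⟪p, z.1⟫_ℂ = g z := rfl
    rw [h1, h2, h3]
    ring
  have hKK : ∀ z w, (1 - g z * conj (g w)) * ⟪K z, K w⟫_ℂ = 1 + ⟪Q w, Q z⟫_ℂ * ⟪K z, K w⟫_ℂ := by
    intro z w
    rw [hQ, hKdef, inner_ker_ker]
    have hne : 1 - ⟪w.1, z.1⟫_ℂ ≠ 0 := by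
      refine one_sub_ne ?_
      have h1 := norm_inner_le_norm (𝕜 := ℂ) w.1 z.1
      have hz : ‖z.1‖ < 1 := mem_ball_zero_iff.mp z.2
      have hw : ‖w.1‖ < 1 := mem_ball_zero_iff.mp w.2
      have h0 := norm_nonneg z.1
      have h0' := norm_nonneg w.1
      nlinarith
    field_simp
    ring
  let e : Metric.ball (0 : Cd d) 1 → ℂ := fun z => c z / (1 - conj (g z))
  -- the main identity
  have hmain : ⟪∑ i ∈ s, c i • K i, ∑ i ∈ s, (c i * conj (kp p i.1)) • K i⟫_ℂ +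
      ⟪∑ i ∈ s, (c i * conj (kp p i.1)) • K i, ∑ i ∈ s, c i • K i⟫_ℂ =
      2 * (((‖∑ i ∈ s, e i‖ ^ 2 + ∑ m, ‖∑ i ∈ s, (e i * conj (Q i m)) • K i‖ ^ 2 : ℝ)) : ℂ) := by
    have h1 : ⟪∑ i ∈ s, c i • K i, ∑ i ∈ s, (c i * conj (kp p i.1)) • K i⟫_ℂ +
      ⟪∑ i ∈ s, (c i * conj (kp p i.1)) • K i, ∑ i ∈ s, c i • K i⟫_ℂ =
        ∑ j ∈ s, ∑ i ∈ s, 2 * (conj (e i) * e j * (1 + ⟪Q j, Q i⟫_ℂ * ⟪K i, K j⟫_ℂ)) := by
      simp only [inner_sum, sum_inner, inner_smul_left, inner_smul_right, ← Finset.sum_add_distrib]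
      refine Finset.sum_congr rfl fun j _ => ?_
      rw [Finset.mul_sum, Finset.mul_sum, ← Finset.sum_add_distrib]
      refine Finset.sum_congr rfl fun i _ => ?_
      rw [← hKK]
      have e1 : conj (kp p j.1) = (1 + conj (g j)) / (1 - conj (g j)) := by
        simp [kp, g]
      have e2 : conj (c i * conj (kp p i.1)) = conj (c i) * ((1 + g i) / (1 - g i)) := by
        simp [kp, g]
      have e3 : conj (e i) = conj (c i) / (1 - g i) := by simp [e]
      rw [e1, e2, e3]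
      simp only [e]
      have := hg i
      have := hg' j
      field_simp
      ring
    rw [h1]
    have h2 : ((‖∑ i ∈ s, e i‖ ^ 2 : ℝ) : ℂ) = ∑ j ∈ s, ∑ i ∈ s, conj (e i) * e j := by
      rw [Complex.ofReal_pow, ← Complex.conj_mul', map_sum, Finset.sum_mul_sum, Finset.sum_comm]
    have h3 : ∀ m, ((‖∑ i ∈ s, (e i * conj (Q i m)) • K i‖ ^ 2 : ℝ) : ℂ) =
        ∑ j ∈ s, ∑ i ∈ s, conj (e i) * e j * (Q i m * conj (Q j m)) * ⟪K i, K j⟫_ℂ := by
      intro m
      have := inner_self_eq_norm_sq_to_K (𝕜 := ℂ) (∑ i ∈ s, (e i * conj (Q i m)) • K i)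
      rw [Complex.ofReal_pow]
      refine Eq.trans this.symm ?_
      simp only [inner_sum, sum_inner, inner_smul_left, inner_smul_right]
      refine Finset.sum_congr rfl fun j _ => ?_
      rw [Finset.mul_sum]
      refine Finset.sum_congr rfl fun i _ => ?_
      simp only [map_mul, Complex.conj_conj]
      ring
    rw [Complex.ofReal_add, Complex.ofReal_sum, h2]
    simp only [h3]
    rw [Finset.sum_comm (s := univ), ← Finset.sum_add_distrib, Finset.mul_sum]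
    refine Finset.sum_congr rfl fun j _ => ?_
    rw [Finset.sum_comm (s := univ), ← Finset.sum_add_distrib, Finset.mul_sum]
    refine Finset.sum_congr rfl fun i _ => ?_
    have h4 : ⟪Q j, Q i⟫_ℂ = ∑ m, Q i m * conj (Q j m) := by
      rw [PiLp.inner_apply]; rfl
    rw [h4, mul_add, mul_one, Finset.sum_mul, Finset.mul_sum]
    congr 2
    refine Finset.sum_congr rfl fun m _ => ?_
    ring
  have h5 := congrArg Complex.re hmain
  rw [Complex.add_re, ← inner_conj_symm (∑ i ∈ s, (c i * conj (kp p i.1)) • K i)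
    (∑ i ∈ s, c i • K i), Complex.conj_re] at h5
  have h6 : (2 * (((‖∑ i ∈ s, e i‖ ^ 2 + ∑ m, ‖∑ i ∈ s, (e i * conj (Q i m)) • K i‖ ^ 2 : ℝ)) : ℂ)).re
      = 2 * (‖∑ i ∈ s, e i‖ ^ 2 + ∑ m, ‖∑ i ∈ s, (e i * conj (Q i m)) • K i‖ ^ 2) := by
    rw [show (2:ℂ) = ((2:ℝ):ℂ) by norm_num, ← Complex.ofReal_mul, Complex.ofReal_re]
  rw [h6] at h5
  have h7 : 0 ≤ ‖∑ i ∈ s, e i‖ ^ 2 + ∑ m, ‖∑ i ∈ s, (e i * conj (Q i m)) • K i‖ ^ 2 := by
    have : 0 ≤ ∑ m, ‖∑ i ∈ s, (e i * conj (Q i m)) • K i‖ ^ 2 :=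
      Finset.sum_nonneg fun m _ => by positivity
    positivity
  linarith

end Pool.Agent.H55DA
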