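import Pool.Agent.H55DA.Radial

/-! Outer functions, and `exp (-Φ)` is outer when `|a| < 1` almost everywhere. -/

open scoped ComplexConjugate
open MeasureTheory Filter Topology Set

namespace Pool.Agent.H55DA

/-- `g` is an outer function in `H^∞(𝔻)`: `g` is analytic and bounded on the unit disc,
`g 0 ≠ 0`, its radial limits `b s = lim_{r → 1-} g (r e^{is})` exist and are non-zero for almost
every `s ∈ (0, 2π]`, `log ‖b‖` is integrable on `(0, 2π)`, and
`log ‖g 0‖ = (2π)⁻¹ ∫_0^{2π} log ‖b s‖ ds`. -/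
def IsOuter (g : ℂ → ℂ) : Prop :=
  DifferentiableOn ℂ g (Metric.ball 0 1) ∧
  (∃ M : ℝ, ∀ w ∈ Metric.ball (0 : ℂ) 1, ‖g w‖ ≤ M) ∧
  g 0 ≠ 0 ∧
  ∃ b : ℝ → ℂ,
    (∀ᵐ s : ℝ, s ∈ Set.Ioc 0 (2 * Real.pi) → b s ≠ 0 ∧
      Tendsto (fun r : ℝ => g (r * Complex.exp (s * Complex.I))) (𝓝[<] 1) (𝓝 (b s))) ∧
    IntervalIntegrable (fun s => Real.log ‖b s‖) volume 0 (2 * Real.pi) ∧
    Real.log ‖g 0‖ = (2 * Real.pi)⁻¹ * ∫ s in (0:ℝ)..(2 * Real.pi), Real.log ‖b s‖

theorem exp_inj_Ioc {s₁ s₂ : ℝ} (h₁ : s₁ ∈ Ioc 0 (2 * Real.pi)) (h₂ : s₂ ∈ Ioc 0 (2 * Real.pi))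
    (h : Complex.exp (s₁ * Complex.I) = Complex.exp (s₂ * Complex.I)) : s₁ = s₂ := by
  rw [Complex.exp_eq_exp_iff_exists_int] at h
  obtain ⟨n, hn⟩ := h
  have h3 : (s₁ : ℂ) = s₂ + n * (2 * Real.pi) := by
    have h4 : ((s₁:ℂ) - (s₂ + n * (2 * Real.pi))) * Complex.I = 0 := by
      linear_combination hn
    rcases mul_eq_zero.mp h4 with h5 | h5
    · linear_combination h5
    · exact absurd h5 Complex.I_ne_zero
  have h4 : s₁ = s₂ + n * (2 * Real.pi) := by exact_mod_cast h3
  have hpi := Real.pi_pos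
  have h5 : (n:ℝ) * (2 * Real.pi) < 1 * (2 * Real.pi) := by
    have := h₁.2
    have := h₂.1
    linarith
  have h6 : (-1:ℝ) * (2 * Real.pi) < (n:ℝ) * (2 * Real.pi) := by
    have := h₁.1
    have := h₂.2
    linarith
  have h7 : (n:ℝ) < 1 := lt_of_mul_lt_mul_right h5 (by positivity)
  have h8 : (-1:ℝ) < n := lt_of_mul_lt_mul_right h6 (by positivity)
  have h9 : n < 1 := by exact_mod_cast h7
  have h10 : -1 < n := by exact_mod_cast h8
  have h11 : n = 0 := by omega
  rw [h4, h11]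
  simp

variable {τ : Measure ℝ} {a : ℝ → ℂ}

theorem norm_expI (s : ℝ) : ‖Complex.exp (s * Complex.I)‖ = 1 := Complex.norm_exp_ofReal_mul_I s

theorem ae_good (huniq : ∀ t₁ ∈ cantorSet, ∀ t₂ ∈ cantorSet, ‖a t₁‖ = 1 → ‖a t₂‖ = 1 → t₁ = t₂) :
    ∀ᵐ s : ℝ, s ∈ Ioc 0 (2 * Real.pi) →
      ∀ t ∈ cantorSet, Complex.exp (s * Complex.I) * a t ≠ 1 := by
  rw [ae_iff]
  refine Set.Subsingleton.measure_zero ?_ _
  intro s₁ h₁ s₂ h₂
  simp only [mem_ofPred_eq, not_forall, not_not] at h₁ h₂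
  obtain ⟨hs₁, t₁, ht₁, e₁⟩ := h₁
  obtain ⟨hs₂, t₂, ht₂, e₂⟩ := h₂
  have n₁ : ‖a t₁‖ = 1 := by
    have := congrArg norm e₁
    rwa [norm_mul, norm_expI, one_mul, norm_one] at this
  have n₂ : ‖a t₂‖ = 1 := by
    have := congrArg norm e₂
    rwa [norm_mul, norm_expI, one_mul, norm_one] at this
  have htt := huniq t₁ ht₁ t₂ ht₂ n₁ n₂
  subst htt
  have hne : a t₁ ≠ 0 := by
    intro h0
    rw [h0, norm_zero] at n₁
    exact zero_ne_one n₁
  refine exp_inj_Ioc hs₁ hs₂ ?_
  exact mul_right_cancel₀ hne (e₁.trans e₂.symm)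

/-- The Poisson-type kernel in the two variables. -/
noncomputable def kerK (a : ℝ → ℂ) (x : ℝ × ℝ) : ℝ :=
  ((1 + Complex.exp (x.1 * Complex.I) * a x.2) / (1 - Complex.exp (x.1 * Complex.I) * a x.2)).re

theorem measurable_kerK (ha : Continuous a) : Measurable (kerK a) := by
  have h1 : Measurable fun x : ℝ × ℝ => Complex.exp (x.1 * Complex.I) * a x.2 := by
    refine Continuous.measurable ?_
    fun_prop
  unfold kerK
  exact Complex.measurable_re.comp ((measurable_const.add h1).div (measurable_const.sub h1))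

theorem kerK_nonneg (ha1 : ∀ t, ‖a t‖ ≤ 1) (x : ℝ × ℝ) : 0 ≤ kerK a x := by
  refine re_kernel_nonneg ?_
  rw [norm_mul, norm_expI, one_mul]
  exact ha1 _

theorem continuous_kerK_left {t : ℝ} (ht : ‖a t‖ < 1) : Continuous fun s => kerK a (s, t) := by
  have h1 : Continuous fun s : ℝ => Complex.exp (s * Complex.I) * a t := by
    have : Continuous fun s : ℝ => Complex.exp (s * Complex.I) := by fun_prop
    exact this.mul continuous_const
  unfold kerK
  refine Complex.continuous_re.comp ?_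
  refine Continuous.div (continuous_const.add h1) (continuous_const.sub h1) fun s => ?_
  refine ne_one_of_norm_lt ?_
  rw [norm_mul, norm_expI, one_mul]
  exact ht

theorem integral_kerK_left {t : ℝ} (ht : ‖a t‖ < 1) :
    ∫ s in (0:ℝ)..(2 * Real.pi), kerK a (s, t) = 2 * Real.pi := by
  have hne : ∀ w : ℂ, ‖w‖ ≤ 1 → 1 - w * a t ≠ 0 := by
    intro w hw
    refine ne_one_of_norm_lt ?_
    rw [norm_mul]
    have h1 := norm_nonneg w
    have h2 := norm_nonneg (a t)
    nlinarith
  have hd : DifferentiableOn ℂ (fun w : ℂ => (1 + w * a t) / (1 - w * a t))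
      (Metric.closedBall 0 1) := by
    intro w hw
    rw [mem_closedBall_zero_iff] at hw
    have := hne w hw
    refine DifferentiableWithinAt.div (by fun_prop) (by fun_prop) this
  have h1 : Real.circleAverage (fun w : ℂ => (1 + w * a t) / (1 - w * a t)) 0 1 = 1 := by
    have h2 := DiffContOnCl.circleAverage (c := 0) (R := 1)
      (f := fun w : ℂ => (1 + w * a t) / (1 - w * a t)) (by
        refine DifferentiableOn.diffContOnCl ?_
        refine hd.mono ?_
        rw [abs_one]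
        exact closure_minimal Metric.ball_subset_closedBall Metric.isClosed_closedBall)
    rw [h2]; simp
  have hci : CircleIntegrable (fun w : ℂ => (1 + w * a t) / (1 - w * a t)) 0 1 := by
    refine ContinuousOn.circleIntegrable' ?_
    refine hd.continuousOn.mono ?_
    rw [abs_one]
    exact Metric.sphere_subset_closedBall
  have h3 := Complex.reCLM.circleAverage_comp_comm hci
  rw [h1] at h3
  unfold Real.circleAverage at h3
  have h4 : (fun θ : ℝ => (⇑Complex.reCLM ∘ fun w : ℂ => (1 + w * a t) / (1 - w * a t))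
      (circleMap 0 1 θ)) = fun s => kerK a (s, t) := by
    funext s
    simp [kerK, circleMap]
  rw [h4, smul_eq_mul] at h3
  have hpi : 2 * Real.pi ≠ 0 := by positivity
  have h5 : Complex.reCLM 1 = 1 := by simp
  rw [h5] at h3
  field_simp at h3
  exact h3

theorem isOuter_exp_phi [IsProbabilityMeasure τ] [NullSingletonClass τ]
    (hτ : τ cantorSetᶜ = 0) (ha : Continuous a) (ha1 : ∀ t, ‖a t‖ ≤ 1)
    (huniq : ∀ t₁ ∈ cantorSet, ∀ t₂ ∈ cantorSet, ‖a t₁‖ = 1 → ‖a t₂‖ = 1 → t₁ = t₂)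
    {g : ℂ → ℂ} (hg : DifferentiableOn ℂ g (Metric.ball 0 1))
    (hgphi : ∀ ζ, ‖ζ‖ < 1 → g ζ = Complex.exp (-phi τ a ζ)) : IsOuter g := by
  have hgood := ae_good huniq
  have hpi : 0 < 2 * Real.pi := by positivity
  -- almost every t has ‖a t‖ < 1
  have hlt : ∀ᵐ t ∂τ, ‖a t‖ < 1 := by
    have h1 : ∀ᵐ t ∂τ, t ∉ {t | t ∈ cantorSet ∧ ‖a t‖ = 1} := by
      rw [ae_iff]
      simp only [not_not]
      refine Set.Subsingleton.measure_zero ?_ _
      intro t₁ h₁ t₂ h₂
      exact huniq t₁ h₁.1 t₂ h₂.1 h₁.2 h₂.2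
    filter_upwards [ae_mem_cantor hτ, h1] with t ht1 ht2
    refine lt_of_le_of_ne (ha1 t) fun h => ht2 ⟨ht1, h⟩
  set ν : Measure ℝ := volume.restrict (Ioc 0 (2 * Real.pi)) with hν
  have hint : Integrable (kerK a) (ν.prod τ) := by
    rw [integrable_prod_iff' (measurable_kerK ha).aestronglyMeasurable]
    constructor
    · filter_upwards [hlt] with t ht
      have := (continuous_kerK_left ht).intervalIntegrable 0 (2 * Real.pi) (μ := volume)
      rw [intervalIntegrable_iff_integrableOn_Ioc_of_le hpi.le] at this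
      exact this
    · refine (integrable_const (2 * Real.pi)).congr ?_
      filter_upwards [hlt] with t ht
      have h1 := integral_kerK_left ht
      rw [intervalIntegral.integral_of_le hpi.le] at h1
      rw [← h1]
      refine integral_congr_ae ?_
      refine Eventually.of_forall fun s => ?_
      exact (Real.norm_of_nonneg (kerK_nonneg ha1 _)).symm
  have hswap : ∫ s, ∫ t, kerK a (s, t) ∂τ ∂ν = 2 * Real.pi := by
    rw [integral_integral_swap (f := fun s t => kerK a (s, t)) hint]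
    have h1 : ∫ t, ∫ s, kerK a (s, t) ∂ν ∂τ = ∫ _, (2 * Real.pi) ∂τ := by
      refine integral_congr_ae ?_
      filter_upwards [hlt] with t ht
      have h1 := integral_kerK_left ht
      rw [intervalIntegral.integral_of_le hpi.le] at h1
      exact h1
    rw [h1]
    simp
  have hlog : ∀ᵐ s : ℝ ∂ν, Real.log ‖Complex.exp (-phi τ a (Complex.exp (s * Complex.I)))‖ =
      -∫ t, kerK a (s, t) ∂τ := by
    rw [hν, ae_restrict_iff' measurableSet_Ioc]
    filter_upwards [hgood] with s hs hmem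
    rw [Complex.norm_exp, Real.log_exp, Complex.neg_re,
      re_phi_boundary hτ ha ha1 (norm_expI s) (hs hmem)]
    rfl
  refine ⟨hg, ⟨1, ?_⟩, ?_, fun s => Complex.exp (-phi τ a (Complex.exp (s * Complex.I))),
    ?_, ?_, ?_⟩
  · intro w hw
    rw [mem_ball_zero_iff] at hw
    rw [hgphi w hw, Complex.norm_exp, Complex.neg_re]
    have := re_phi_nonneg (τ := τ) ha ha1 hw
    exact Real.exp_le_one_iff.mpr (by linarith)
  · rw [hgphi 0 (by simp)]
    exact Complex.exp_ne_zero _
  · filter_upwards [hgood] with s hs hmem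
    refine ⟨Complex.exp_ne_zero _, ?_⟩
    have h1 := tendsto_phi hτ ha ha1 (norm_expI s) (hs hmem)
    have h2 := (Complex.continuous_exp.tendsto _).comp h1.neg
    refine h2.congr' ?_
    have h3 : ∀ᶠ r : ℝ in 𝓝[<] 1, 0 < r :=
      mem_nhdsWithin_of_mem_nhds (lt_mem_nhds one_pos)
    have h4 : ∀ᶠ r : ℝ in 𝓝[<] 1, r < 1 := self_mem_nhdsWithin
    filter_upwards [h3, h4] with r hr0 hr1
    rw [hgphi]
    · rfl
    · rw [norm_mul, norm_expI, mul_one, Complex.norm_real, Real.norm_eq_abs, abs_of_pos hr0]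
      exact hr1
  · rw [intervalIntegrable_iff_integrableOn_Ioc_of_le hpi.le]
    have h1 : Integrable (fun s => -∫ t, kerK a (s, t) ∂τ) ν := hint.integral_prod_left.neg
    refine h1.congr ?_
    filter_upwards [hlog] with s hs
    exact hs.symm
  · rw [intervalIntegral.integral_of_le hpi.le, integral_congr_ae hlog, integral_neg, hswap,
      hgphi 0 (by simp), phi_zero, Complex.norm_exp]
    simp only [Complex.neg_re, Complex.one_re, Real.log_exp]
    field_simp

end Pool.Agent.H55DA
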