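import Pool.Agent.H55DA.Fun
import Pool.Agent.H55DA.Disc
import Pool.Agent.H55DA.Contra
import Pool.Agent.H55DA.Outer

/-! Assembly: outer slices do not imply pseudo-cyclicity. -/

open scoped InnerProductSpace ComplexConjugate
open MeasureTheory Filter Topology Set

namespace Pool.Agent.H55DA

theorem hasCoeffs_one (d : ℕ) :
    HasCoeffs (1 : Cd d → ℂ) (fun α => if α = 0 then 1 else 0) := by
  constructor
  · refine summable_of_ne_finset_zero (s := {0}) ?_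
    intro α hα
    rw [Finset.notMem_singleton] at hα
    simp [hα]
  · intro z _
    have h := hasSum_single (f := fun α : Fin d → ℕ => (if α = 0 then (1:ℂ) else 0) * mono z α) 0
      (fun α hα => by simp [hα])
    simpa [mono] using h

theorem one_mem_DA (d : ℕ) : (1 : Cd d → ℂ) ∈ DA d := ⟨_, hasCoeffs_one d⟩

theorem one_mem_Mult (d : ℕ) : (1 : Cd d → ℂ) ∈ Mult d := fun f hf => by rwa [one_mul]

theorem Mult_subset_DA {d : ℕ} {m : Cd d → ℂ} (hm : m ∈ Mult d) : m ∈ DA d := by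
  have := hm 1 (one_mem_DA d)
  rwa [mul_one] at this

theorem pow_mem_DA {d : ℕ} {m : Cd d → ℂ} (hm : m ∈ Mult d) (n : ℕ) : m ^ n ∈ DA d := by
  induction n with
  | zero => rw [pow_zero]; exact one_mem_DA d
  | succ n ih => rw [pow_succ']; exact hm _ ih

theorem normLT_zero {d : ℕ} {ε : ℝ} (hε : 0 < ε) : NormLT (0 : Cd d → ℂ) ε := by
  refine ⟨0, ⟨?_, ?_⟩, ?_⟩
  · simpa using summable_zero
  · intro z _
    simpa using hasSum_zero
  · simp
    positivity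

theorem mem_cyc_self {d : ℕ} {m : Cd d → ℂ} (hm : m ∈ Mult d) (n : ℕ) : m ^ n ∈ cyc (m ^ n) := by
  refine ⟨pow_mem_DA hm n, fun ε hε => ⟨1, one_mem_Mult d, ?_⟩⟩
  rw [one_mul, sub_self]
  exact normLT_zero hε

/-! ### Slices -/

theorem rep_slice {d : ℕ} {f : Cd d → ℂ} (hf : f ∈ DA d) {z : Cd d} (hz : ‖z‖ = 1) :
    ∃ G : E2, Rep (fun w : ℂ => f (w • z)) G := by
  rw [mem_DA_iff] at hf
  obtain ⟨u, hu⟩ := hf
  have hmem : ∀ w : Metric.ball (0:ℂ) 1, w.1 • z ∈ Metric.ball (0 : Cd d) 1 := by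
    intro w
    rw [mem_ball_zero_iff, norm_smul, hz, mul_one]
    exact mem_ball_zero_iff.mp w.2
  obtain ⟨G, -, hG⟩ := exists_comp (ker (d := d)) kD (fun w => ⟨w.1 • z, hmem w⟩) 1 zero_le_one
    (by
      intro i j
      rw [inner_ker_ker, inner_kD_kD, inner_smul_left, inner_smul_right,
        inner_self_eq_norm_sq_to_K, hz]
      simp) u
  refine ⟨G, fun w => ?_⟩
  rw [hG w, hu]

section
variable {d : ℕ} (i₀ i₁ : Fin d)

theorem inner_pt_uniq (h : i₀ ≠ i₁) {z : Cd d} (hz : ‖z‖ = 1) :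
    ∀ t₁ ∈ cantorSet, ∀ t₂ ∈ cantorSet, ‖⟪pt i₀ i₁ t₁, z⟫_ℂ‖ = 1 → ‖⟪pt i₀ i₁ t₂, z⟫_ℂ‖ = 1 →
      t₁ = t₂ := by
  intro t₁ ht₁ t₂ ht₂ n₁ n₂
  have hz0 : z ≠ 0 := by
    intro h0
    rw [h0, norm_zero] at hz
    exact zero_ne_one hz
  have hp0 : ∀ t, pt i₀ i₁ t ≠ 0 := by
    intro t h0
    have := norm_pt i₀ i₁ h t
    rw [h0, norm_zero] at this
    exact zero_ne_one this
  have key : ∀ t, ‖⟪pt i₀ i₁ t, z⟫_ℂ‖ = 1 → ∃ r : ℂ, r ≠ 0 ∧ z = r • pt i₀ i₁ t := by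
    intro t ht
    refine (norm_inner_eq_norm_iff (hp0 t) hz0).mp ?_
    rw [ht, norm_pt i₀ i₁ h t, hz, one_mul]
  obtain ⟨r₁, hr₁, e₁⟩ := key t₁ n₁
  obtain ⟨r₂, hr₂, e₂⟩ := key t₂ n₂
  have c0 : ∀ t, pt i₀ i₁ t i₀ = 3 / 5 := by
    intro t
    simp [pt, q, h]
  have c1 : ∀ t, pt i₀ i₁ t i₁ = 4 / 5 * Complex.exp (t * Complex.I) := by
    intro t
    simp [pt, q, h.symm]
  have a0 : r₁ * (3 / 5) = r₂ * (3 / 5) := by
    have g1 : z i₀ = r₁ * pt i₀ i₁ t₁ i₀ := by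
      conv_lhs => rw [e₁]
      simp
    have g2 : z i₀ = r₂ * pt i₀ i₁ t₂ i₀ := by
      conv_lhs => rw [e₂]
      simp
    rw [c0] at g1 g2
    exact g1.symm.trans g2
  have a1 : r₁ * (4 / 5 * Complex.exp (t₁ * Complex.I)) =
      r₂ * (4 / 5 * Complex.exp (t₂ * Complex.I)) := by
    have g1 : z i₁ = r₁ * pt i₀ i₁ t₁ i₁ := by
      conv_lhs => rw [e₁]
      simp
    have g2 : z i₁ = r₂ * pt i₀ i₁ t₂ i₁ := by
      conv_lhs => rw [e₂]
      simp
    rw [c1] at g1 g2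
    exact g1.symm.trans g2
  have hr : r₁ = r₂ := by linear_combination (5 / 3) * a0
  subst hr
  have he : Complex.exp (t₁ * Complex.I) = Complex.exp (t₂ * Complex.I) := by
    have h1 : r₁ * (4 / 5 : ℂ) ≠ 0 := mul_ne_zero hr₁ (by norm_num)
    refine mul_left_cancel₀ h1 ?_
    linear_combination a1
  have hI₁ := cantorSet_subset_unitInterval ht₁
  have hI₂ := cantorSet_subset_unitInterval ht₂
  have hpi := Real.pi_gt_three
  have : t₁ + 1 = t₂ + 1 := by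
    refine exp_inj_Ioc ⟨by linarith [hI₁.1], by linarith [hI₁.2]⟩
      ⟨by linarith [hI₂.1], by linarith [hI₂.2]⟩ ?_
    push_cast
    rw [add_mul, add_mul, Complex.exp_add, Complex.exp_add, he]
  linarith

variable (τ : Measure ℝ)

theorem isOuter_slice (h : i₀ ≠ i₁) [IsProbabilityMeasure τ] [NullSingletonClass τ]
    (hτ : τ cantorSetᶜ = 0) {z : Cd d} (hz : ‖z‖ = 1) :
    IsOuter (fun w : ℂ => ffun i₀ i₁ τ (w • z)) := by
  obtain ⟨G, hG⟩ := rep_slice (Mult_subset_DA (ffun_mem_Mult i₀ i₁ τ h)) hz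
  refine isOuter_exp_phi (τ := τ) (a := fun t => ⟪pt i₀ i₁ t, z⟫_ℂ) hτ ?_ ?_ ?_
    hG.differentiableOn ?_
  · exact (continuous_pt i₀ i₁).inner continuous_const
  · intro t
    have := norm_inner_le_norm (𝕜 := ℂ) (pt i₀ i₁ t) z
    rwa [norm_pt i₀ i₁ h t, hz, one_mul] at this
  · exact inner_pt_uniq i₀ i₁ h hz
  · intro ζ _
    simp only [ffun, hfun, phi, kp, inner_smul_right]

/-! ### Restriction to the curve -/

/-- `a₀(t) = e^{-it}`. -/
noncomputable def a0 (t : ℝ) : ℂ := conj (Complex.exp (t * Complex.I))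

theorem continuous_a0 : Continuous a0 := by
  unfold a0
  exact Complex.continuous_conj.comp (by fun_prop)

theorem norm_a0 (t : ℝ) : ‖a0 t‖ = 1 := by
  unfold a0
  rw [RCLike.norm_conj, norm_expI]

/-- The inner factor on the curve. -/
noncomputable def Sfun (η : ℂ) : ℂ := Complex.exp (-(25 / 16) * phi τ a0 η)

theorem norm_q_lt (h : i₀ ≠ i₁) {η : ℂ} (hη : ‖η‖ < 1) : ‖q i₀ i₁ η‖ < 1 := by
  have h1 := norm_sq_q i₀ i₁ h η
  have h2 := norm_nonneg (q i₀ i₁ η)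
  have h3 := norm_nonneg η
  nlinarith

theorem ffun_q (h : i₀ ≠ i₁) [IsProbabilityMeasure τ] {η : ℂ} (hη : ‖η‖ < 1) :
    ffun i₀ i₁ τ (q i₀ i₁ η) = ((Real.exp (-(9 / 16)) : ℝ) : ℂ) * Sfun τ η := by
  have h1 : hfun i₀ i₁ τ (q i₀ i₁ η) = 25 / 16 * phi τ a0 η + 9 / 16 := by
    have h2 : ∀ t, kp (pt i₀ i₁ t) (q i₀ i₁ η) =
        25 / 16 * ((1 + η * a0 t) / (1 - η * a0 t)) + 9 / 16 := by
      intro t
      have h3 : 1 - η * a0 t ≠ 0 := by
        refine ne_one_of_norm_lt ?_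
        rw [norm_mul, norm_a0, mul_one]
        exact hη
      unfold kp pt
      rw [inner_q i₀ i₁ h]
      have h4 : conj (Complex.exp (t * Complex.I)) * η = η * a0 t := by
        unfold a0; ring
      rw [h4]
      have h5 : 1 - (9 / 25 + 16 / 25 * (η * a0 t)) = 16 / 25 * (1 - η * a0 t) := by ring
      rw [h5]
      field_simp
      ring
    unfold hfun
    simp only [h2]
    have hint := integrable_kernel_disc (τ := τ) continuous_a0 (fun t => (norm_a0 t).le) hη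
    rw [integral_add (hint.const_mul _) (integrable_const _), integral_const_mul]
    simp [phi]
  unfold ffun Sfun
  rw [h1, Complex.ofReal_exp, ← Complex.exp_add]
  congr 1
  push_cast
  ring

theorem norm_Sfun_le [IsProbabilityMeasure τ] {η : ℂ} (hη : ‖η‖ < 1) : ‖Sfun τ η‖ ≤ 1 := by
  unfold Sfun
  rw [Complex.norm_exp]
  have h1 := re_phi_nonneg (τ := τ) continuous_a0 (fun t => (norm_a0 t).le) hη
  have h2 : (-(25 / 16) * phi τ a0 η).re = -(25 / 16) * (phi τ a0 η).re := by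
    have : (-(25 / 16) : ℂ) = ((-(25 / 16) : ℝ) : ℂ) := by push_cast; rfl
    rw [this, Complex.re_ofReal_mul]
  rw [h2]
  exact Real.exp_le_one_iff.mpr (by linarith)

theorem Sfun_zero [IsProbabilityMeasure τ] : Sfun τ 0 = ((Real.exp (-(25 / 16)) : ℝ) : ℂ) := by
  unfold Sfun
  rw [phi_zero, Complex.ofReal_exp]
  congr 1
  push_cast
  ring

theorem ae_good_a0 : ∀ᵐ s : ℝ, s ∈ Ioc 0 (2 * Real.pi) →
      ∀ t ∈ cantorSet, Complex.exp (s * Complex.I) * a0 t ≠ 1 := by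
  have h1 : ∀ᵐ s : ℝ, s ∉ cantorSet := by
    rw [ae_iff]
    simpa using volume_cantorSet
  have h2 : ∀ᵐ s : ℝ, s ≠ 2 * Real.pi := by
    rw [ae_iff]
    simp
  filter_upwards [h1, h2] with s hs1 hs2 hmem t ht he
  have hpi := Real.pi_gt_three
  have hI := cantorSet_subset_unitInterval ht
  have h3 : Complex.exp (s * Complex.I) = Complex.exp (t * Complex.I) := by
    have h4 : a0 t * Complex.exp (t * Complex.I) = 1 := by
      unfold a0
      rw [Complex.conj_mul', norm_expI]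
      simp
    calc Complex.exp (s * Complex.I) = Complex.exp (s * Complex.I) * (a0 t *
          Complex.exp (t * Complex.I)) := by rw [h4, mul_one]
      _ = (Complex.exp (s * Complex.I) * a0 t) * Complex.exp (t * Complex.I) := by ring
      _ = Complex.exp (t * Complex.I) := by rw [he, one_mul]
  rcases eq_or_lt_of_le hI.1 with h0 | h0
  · -- t = 0
    apply hs2
    refine exp_inj_Ioc hmem ⟨by linarith, le_refl _⟩ ?_
    rw [h3, ← h0]
    push_cast
    rw [zero_mul, Complex.exp_zero]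
    have := Complex.exp_two_pi_mul_I
    exact this.symm
  · have : s = t := exp_inj_Ioc hmem ⟨h0, by linarith [hI.2]⟩ h3
    exact hs1 (this ▸ ht)

theorem tendsto_norm_Sfun [IsProbabilityMeasure τ] (hτ : τ cantorSetᶜ = 0) :
    ∀ᵐ s : ℝ, s ∈ Set.uIoc 0 (2 * Real.pi) →
      Tendsto (fun r : ℝ => ‖Sfun τ (circleMap 0 r s)‖) (𝓝[<] 1) (𝓝 1) := by
  filter_upwards [ae_good_a0] with s hs hmem
  rw [uIoc_of_le (by positivity)] at hmem
  have hg := hs hmem
  have h1 := tendsto_phi hτ continuous_a0 (fun t => (norm_a0 t).le) (norm_expI s) hg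
  have h2 : Tendsto (fun r : ℝ => ‖Sfun τ (r * Complex.exp (s * Complex.I))‖) (𝓝[<] 1)
      (𝓝 ‖Sfun τ (Complex.exp (s * Complex.I))‖) := by
    unfold Sfun
    exact ((Complex.continuous_exp.tendsto _).comp (h1.const_mul _)).norm
  have h3 : ‖Sfun τ (Complex.exp (s * Complex.I))‖ = 1 := by
    unfold Sfun
    rw [Complex.norm_exp]
    have h4 : (-(25 / 16) * phi τ a0 (Complex.exp (s * Complex.I))).re =
        -(25 / 16) * (phi τ a0 (Complex.exp (s * Complex.I))).re := by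
      have : (-(25 / 16) : ℂ) = ((-(25 / 16) : ℝ) : ℂ) := by push_cast; rfl
      rw [this, Complex.re_ofReal_mul]
    rw [h4, re_phi_boundary_unimodular hτ continuous_a0 norm_a0 (norm_expI s) hg]
    simp
  rw [h3] at h2
  refine h2.congr fun r => ?_
  simp [circleMap]

theorem rep_curve (h : i₀ ≠ i₁) {f : Cd d → ℂ} (u : L2 d)
    (hu : ∀ z : Metric.ball (0 : Cd d) 1, ⟪ker z, u⟫_ℂ = f z.1) :
    ∃ G : E2, ‖G‖ ≤ 5 / 4 * ‖u‖ ∧ Rep (fun η : ℂ => f (q i₀ i₁ η)) G := by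
  have hmem : ∀ w : Metric.ball (0:ℂ) 1, q i₀ i₁ w.1 ∈ Metric.ball (0 : Cd d) 1 := by
    intro w
    rw [mem_ball_zero_iff]
    exact norm_q_lt i₀ i₁ h (mem_ball_zero_iff.mp w.2)
  obtain ⟨G, hG1, hG⟩ := exists_comp (ker (d := d)) kD (fun w => ⟨q i₀ i₁ w.1, hmem w⟩) (5 / 4)
    (by norm_num)
    (by
      intro i j
      rw [inner_ker_ker, inner_kD_kD, inner_q i₀ i₁ h]
      have h5 : 1 - (9 / 25 + 16 / 25 * (conj j.1 * i.1)) = 16 / 25 * (1 - conj j.1 * i.1) := by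
        ring
      rw [h5, mul_inv]
      push_cast
      norm_num) u
  refine ⟨G, hG1, fun w => ?_⟩
  rw [hG w, hu]

theorem not_mem_cyc (h : i₀ ≠ i₁) [IsProbabilityMeasure τ]
    (hτ : τ cantorSetᶜ = 0) (n : ℕ) :
    ffun i₀ i₁ τ ^ n ∉ cyc (ffun i₀ i₁ τ ^ (n + 1)) := by
  intro hmem
  set f := ffun i₀ i₁ τ with hf
  set C : ℝ := Real.exp (-(9 / 16)) with hC
  set s0 : ℝ := Real.exp (-(25 / 16)) with hs0
  have hC0 : 0 < C := Real.exp_pos _
  have hC1 : C ≤ 1 := Real.exp_le_one_iff.mpr (by norm_num)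
  have hs00 : 0 < s0 := Real.exp_pos _
  have hs01 : s0 < 1 := by
    rw [hs0, Real.exp_lt_one_iff]
    norm_num
  have hpos : 0 < C ^ n * (1 - s0 ^ 2) := by
    have : s0 ^ 2 < 1 := by nlinarith
    have h1 : 0 < C ^ n := by positivity
    have h2 : 0 < 1 - s0 ^ 2 := by linarith
    positivity
  set δ : ℝ := C ^ n * (1 - s0 ^ 2) / 4 with hδ
  have hδ0 : 0 < δ := by positivity
  obtain ⟨m, hm, a, ha, hnorm⟩ := hmem.2 (4 / 5 * δ) (by positivity)
  obtain ⟨U, hU, hUr⟩ := vec_of_hasCoeffs ha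
  obtain ⟨V, hV⟩ := mem_DA_iff.mp (Mult_subset_DA hm)
  obtain ⟨W, hW⟩ := mem_DA_iff.mp (Mult_subset_DA (ffun_mem_Mult i₀ i₁ τ h))
  obtain ⟨G, hG1, hG⟩ := rep_curve i₀ i₁ h U hUr
  obtain ⟨Bv, -, hB⟩ := rep_curve i₀ i₁ h V hV
  obtain ⟨Fv, -, hF⟩ := rep_curve i₀ i₁ h W hW
  have hUn : ‖U‖ ≤ 4 / 5 * δ := by
    rw [← hU] at hnorm
    have := abs_lt_of_sq_lt_sq hnorm (by positivity)
    rw [abs_of_nonneg (norm_nonneg _)] at this
    exact this.le
  have hGn : ‖G‖ ≤ δ := by linarith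
  have hS : DifferentiableOn ℂ (Sfun τ) (Metric.ball 0 1) := by
    have h1 : DifferentiableOn ℂ (fun η => (C : ℂ)⁻¹ * f (q i₀ i₁ η)) (Metric.ball 0 1) :=
      hF.differentiableOn.const_mul _
    refine h1.congr fun η hη => ?_
    rw [mem_ball_zero_iff] at hη
    rw [hf, ffun_q i₀ i₁ τ h hη, ← mul_assoc, inv_mul_cancel₀, one_mul]
    exact_mod_cast hC0.ne'
  have hfinal := main_bound (S := Sfun τ) (g := fun η => m (q i₀ i₁ η)) (s0 := s0) (C := C)
    (B := ‖Bv‖ ^ 2) (δ := δ) n hS (fun η hη => norm_Sfun_le τ hη) (Sfun_zero τ)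
    hB.differentiableOn hs00.le hs01.le hC0 hC1 hδ0 (tendsto_norm_Sfun τ hτ)
    (fun r hr0 hr1 => hB.circle_le hr0 hr1) (by
      intro r hr0 hr1
      have h1 := hG.circle_le hr0 hr1
      have h2 : Real.circleAverage (fun η => ‖m (q i₀ i₁ η) * (C * Sfun τ η) ^ (n + 1) -
          (C * Sfun τ η) ^ n‖ ^ 2) 0 r =
          Real.circleAverage (fun η => ‖(m * f ^ (n + 1) - f ^ n) (q i₀ i₁ η)‖ ^ 2) 0 r := by
        refine Real.circleAverage_congr_sphere ?_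
        intro η hη
        rw [mem_sphere_zero_iff_norm, abs_of_pos hr0] at hη
        have h3 : ‖η‖ < 1 := by rw [hη]; exact hr1
        simp only [Pi.sub_apply, Pi.mul_apply, Pi.pow_apply]
        rw [hf, ffun_q i₀ i₁ τ h h3]
      rw [h2]
      refine h1.trans ?_
      exact pow_le_pow_left₀ (norm_nonneg _) hGn 2)
  rw [hδ] at hfinal
  linarith

end

/-- The answer: for every `d ≥ 2` there is a multiplier of `H²_d` with outer slices such that
`[f^n] ≠ [f^{n+1}]` for every `n`. -/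
theorem main (d : ℕ) (hd : 2 ≤ d) : ∃ f ∈ Mult d,
    (∀ z : Cd d, ‖z‖ = 1 → IsOuter (fun w : ℂ => f (w • z))) ∧
    ∀ n : ℕ, cyc (f ^ n) ≠ cyc (f ^ (n + 1)) := by
  obtain ⟨τ, h1, h2, h3⟩ := exists_measure
  let i₀ : Fin d := ⟨0, by omega⟩
  let i₁ : Fin d := ⟨1, by omega⟩
  have h : i₀ ≠ i₁ := by
    intro he
    simp [i₀, i₁] at he
  refine ⟨ffun i₀ i₁ τ, ffun_mem_Mult i₀ i₁ τ h, fun z hz => isOuter_slice i₀ i₁ τ h h3 hz,
    fun n he => ?_⟩
  have := mem_cyc_self (ffun_mem_Mult i₀ i₁ τ h) n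
  rw [he] at this
  exact not_mem_cyc i₀ i₁ τ h h3 n this

end Pool.Agent.H55DA
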