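import Pool.Agent.H55DA.Cantor

/-! Radial limits of Herglotz integrals over the Cantor set. -/

open scoped ComplexConjugate
open MeasureTheory Filter Topology Set

namespace Pool.Agent.H55DA

/-- `Φ(ζ) = ∫ (1 + ζ a(t)) / (1 - ζ a(t)) dτ(t)`. -/
noncomputable def phi (τ : Measure ℝ) (a : ℝ → ℂ) (ζ : ℂ) : ℂ :=
  ∫ t, (1 + ζ * a t) / (1 - ζ * a t) ∂τ

theorem re_kernel (ζ : ℂ) : ((1 + ζ) / (1 - ζ)).re = (1 - ‖ζ‖ ^ 2) / ‖1 - ζ‖ ^ 2 := by
  rw [Complex.div_re, ← Complex.normSq_eq_norm_sq, ← Complex.normSq_eq_norm_sq]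
  rw [← add_div]
  congr 1
  simp only [Complex.add_re, Complex.sub_re, Complex.one_re, Complex.add_im, Complex.sub_im,
    Complex.one_im, Complex.normSq_apply]
  ring

theorem re_kernel_nonneg {ζ : ℂ} (h : ‖ζ‖ ≤ 1) : 0 ≤ ((1 + ζ) / (1 - ζ)).re := by
  rw [re_kernel]
  have : ‖ζ‖ ^ 2 ≤ 1 := pow_le_one₀ (norm_nonneg _) h
  exact div_nonneg (by linarith) (by positivity)

theorem ne_one_of_norm_lt {w : ℂ} (hw : ‖w‖ < 1) : 1 - w ≠ 0 := by
  intro h
  have : w = 1 := by linear_combination -h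
  rw [this] at hw
  simp at hw

variable {τ : Measure ℝ} {a : ℝ → ℂ}

theorem ae_mem_cantor (hτ : τ cantorSetᶜ = 0) : ∀ᵐ t ∂τ, t ∈ cantorSet := by
  rw [ae_iff]
  exact hτ

/-- A direction `u` on the unit circle is good when `u a(t) ≠ 1` on the Cantor set. -/
theorem exists_lower (ha : Continuous a) (ha1 : ∀ t, ‖a t‖ ≤ 1) {u : ℂ} (hu : ‖u‖ = 1)
    (hgood : ∀ t ∈ cantorSet, u * a t ≠ 1) :
    ∃ δ > 0, ∀ t ∈ cantorSet, ∀ r ∈ Icc (0:ℝ) 1, δ ≤ ‖1 - (r * u) * a t‖ := by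
  have hcomp : IsCompact (cantorSet ×ˢ Icc (0:ℝ) 1) := isCompact_cantorSet.prod isCompact_Icc
  have hne : (cantorSet ×ˢ Icc (0:ℝ) 1).Nonempty :=
    ⟨(0, 0), zero_mem_cantorSet, by simp⟩
  have hcont : ContinuousOn (fun x : ℝ × ℝ => ‖1 - (x.2 * u) * a x.1‖)
      (cantorSet ×ˢ Icc (0:ℝ) 1) := by
    refine Continuous.continuousOn ?_
    fun_prop
  obtain ⟨x, hx, hmin⟩ := hcomp.exists_isMinOn hne hcont
  refine ⟨‖1 - (x.2 * u) * a x.1‖, ?_, ?_⟩
  · rw [gt_iff_lt, norm_pos_iff]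
    obtain ⟨hx1, hx2⟩ := hx
    rcases lt_or_eq_of_le hx2.2 with h | h
    · refine ne_one_of_norm_lt ?_
      rw [norm_mul, norm_mul, hu, mul_one, Complex.norm_real, Real.norm_eq_abs, abs_of_nonneg hx2.1]
      have h1 := ha1 x.1
      have h2 := norm_nonneg (a x.1)
      have h3 := hx2.1
      nlinarith
    · rw [h]
      intro h0
      apply hgood x.1 hx1
      have : (1:ℂ) - ((1:ℝ):ℂ) * u * a x.1 = 0 := h0
      push_cast at this
      linear_combination -this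
  · intro t ht r hr
    have h1 := isMinOn_iff.mp hmin (t, r) (mk_mem_prod ht hr)
    exact h1

theorem measurable_kernel (ha : Continuous a) (ζ : ℂ) :
    Measurable fun t => (1 + ζ * a t) / (1 - ζ * a t) := by
  have := ha.measurable
  fun_prop

theorem norm_kernel_le {ζ : ℂ} {δ : ℝ} (hδ : 0 < δ) (h : ‖ζ‖ ≤ 1) (h1 : δ ≤ ‖1 - ζ‖) :
    ‖(1 + ζ) / (1 - ζ)‖ ≤ 2 / δ := by
  rw [norm_div]
  have : ‖1 + ζ‖ ≤ 2 := by
    refine (norm_add_le _ _).trans ?_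
    rw [norm_one]; linarith
  gcongr

theorem integrable_kernel_boundary [IsProbabilityMeasure τ] (hτ : τ cantorSetᶜ = 0)
    (ha : Continuous a) (ha1 : ∀ t, ‖a t‖ ≤ 1) {u : ℂ} (hu : ‖u‖ = 1)
    (hgood : ∀ t ∈ cantorSet, u * a t ≠ 1) :
    Integrable (fun t => (1 + u * a t) / (1 - u * a t)) τ := by
  obtain ⟨δ, hδ, hlow⟩ := exists_lower ha ha1 hu hgood
  refine Integrable.of_bound (measurable_kernel ha u).aestronglyMeasurable (2 / δ) ?_
  filter_upwards [ae_mem_cantor hτ] with t ht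
  refine norm_kernel_le hδ ?_ ?_
  · rw [norm_mul, hu, one_mul]; exact ha1 t
  · have := hlow t ht 1 (by simp)
    simpa using this

theorem integrable_kernel_disc [IsProbabilityMeasure τ]
    (ha : Continuous a) (ha1 : ∀ t, ‖a t‖ ≤ 1) {ζ : ℂ} (hζ : ‖ζ‖ < 1) :
    Integrable (fun t => (1 + ζ * a t) / (1 - ζ * a t)) τ := by
  refine Integrable.of_bound (measurable_kernel ha ζ).aestronglyMeasurable (2 / (1 - ‖ζ‖)) ?_
  refine Eventually.of_forall fun t => ?_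
  have h1 : ‖ζ * a t‖ ≤ ‖ζ‖ := by
    rw [norm_mul]
    exact mul_le_of_le_one_right (norm_nonneg _) (ha1 t)
  refine norm_kernel_le (by linarith) (by linarith) ?_
  have := norm_sub_norm_le (1:ℂ) (ζ * a t)
  rw [norm_one] at this
  linarith

theorem tendsto_phi [IsProbabilityMeasure τ] (hτ : τ cantorSetᶜ = 0)
    (ha : Continuous a) (ha1 : ∀ t, ‖a t‖ ≤ 1) {u : ℂ} (hu : ‖u‖ = 1)
    (hgood : ∀ t ∈ cantorSet, u * a t ≠ 1) :
    Tendsto (fun r : ℝ => phi τ a (r * u)) (𝓝[<] 1) (𝓝 (phi τ a u)) := by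
  obtain ⟨δ, hδ, hlow⟩ := exists_lower ha ha1 hu hgood
  have hev : ∀ᶠ r : ℝ in 𝓝[<] 1, r ∈ Icc (0:ℝ) 1 := by
    have h1 : ∀ᶠ r : ℝ in 𝓝[<] 1, 0 < r :=
      mem_nhdsWithin_of_mem_nhds (lt_mem_nhds one_pos)
    have h2 : ∀ᶠ r : ℝ in 𝓝[<] 1, r < 1 := self_mem_nhdsWithin
    filter_upwards [h1, h2] with r h3 h4
    exact ⟨h3.le, h4.le⟩
  unfold phi
  refine tendsto_integral_filter_of_dominated_convergence (fun _ => 2 / δ) ?_ ?_ ?_ ?_
  · exact Eventually.of_forall fun r => (measurable_kernel ha _).aestronglyMeasurable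
  · filter_upwards [hev] with r hr
    filter_upwards [ae_mem_cantor hτ] with t ht
    refine norm_kernel_le hδ ?_ (hlow t ht r hr)
    rw [norm_mul, norm_mul, hu, mul_one, Complex.norm_real, Real.norm_eq_abs, abs_of_nonneg hr.1]
    exact mul_le_one₀ hr.2 (norm_nonneg _) (ha1 t)
  · exact integrable_const _
  · filter_upwards [ae_mem_cantor hτ] with t ht
    have h1 : (1:ℂ) - u * a t ≠ 0 := fun h => hgood t ht (by linear_combination -h)
    have h2 : Tendsto (fun r : ℝ => (r:ℂ) * u) (𝓝[<] 1) (𝓝 u) := by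
      have h3 : Tendsto (fun r : ℝ => (r:ℂ) * u) (𝓝 1) (𝓝 (((1:ℝ):ℂ) * u)) :=
        (Complex.continuous_ofReal.tendsto 1).mul_const u
      rw [Complex.ofReal_one, one_mul] at h3
      exact h3.mono_left nhdsWithin_le_nhds
    exact ((h2.mul_const _).const_add _).div ((h2.mul_const _).const_sub _) h1

theorem re_phi_boundary [IsProbabilityMeasure τ] (hτ : τ cantorSetᶜ = 0)
    (ha : Continuous a) (ha1 : ∀ t, ‖a t‖ ≤ 1) {u : ℂ} (hu : ‖u‖ = 1)
    (hgood : ∀ t ∈ cantorSet, u * a t ≠ 1) :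
    (phi τ a u).re = ∫ t, ((1 + u * a t) / (1 - u * a t)).re ∂τ := by
  have h := integrable_kernel_boundary hτ ha ha1 hu hgood
  exact (Complex.reCLM.integral_comp_comm h).symm

theorem re_phi_disc [IsProbabilityMeasure τ]
    (ha : Continuous a) (ha1 : ∀ t, ‖a t‖ ≤ 1) {ζ : ℂ} (hζ : ‖ζ‖ < 1) :
    (phi τ a ζ).re = ∫ t, ((1 + ζ * a t) / (1 - ζ * a t)).re ∂τ := by
  have h := integrable_kernel_disc (τ := τ) ha ha1 hζ
  exact (Complex.reCLM.integral_comp_comm h).symm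

theorem re_phi_nonneg [IsProbabilityMeasure τ]
    (ha : Continuous a) (ha1 : ∀ t, ‖a t‖ ≤ 1) {ζ : ℂ} (hζ : ‖ζ‖ < 1) :
    0 ≤ (phi τ a ζ).re := by
  rw [re_phi_disc ha ha1 hζ]
  refine integral_nonneg fun t => re_kernel_nonneg ?_
  rw [norm_mul]
  exact mul_le_one₀ hζ.le (norm_nonneg _) (ha1 t)

theorem phi_zero [IsProbabilityMeasure τ] : phi τ a 0 = 1 := by
  simp [phi]

/-- When `|a| = 1` everywhere, the boundary values of `Φ` are purely imaginary. -/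
theorem re_phi_boundary_unimodular [IsProbabilityMeasure τ] (hτ : τ cantorSetᶜ = 0)
    (ha : Continuous a) (ha1 : ∀ t, ‖a t‖ = 1) {u : ℂ} (hu : ‖u‖ = 1)
    (hgood : ∀ t ∈ cantorSet, u * a t ≠ 1) : (phi τ a u).re = 0 := by
  rw [re_phi_boundary hτ ha (fun t => (ha1 t).le) hu hgood]
  have : ∀ t, ((1 + u * a t) / (1 - u * a t)).re = 0 := by
    intro t
    rw [re_kernel, norm_mul, hu, ha1 t]
    simp
  simp [this]

end Pool.Agent.H55DA
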