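import Pool.Agent.H55DA.Basic

/-! The Drury-Arveson space: definitions and the coefficient model `ℓ²`. -/

open scoped InnerProductSpace ComplexConjugate Nat
open Finset

namespace Pool.Agent.H55DA

/-- `ℂ^d` with its Hermitian norm. -/
abbrev Cd (d : ℕ) := EuclideanSpace ℂ (Fin d)

/-- The weight `α! / |α|!`. -/
noncomputable def wt {d : ℕ} (α : Fin d → ℕ) : ℝ := (∏ i, ((α i)! : ℝ)) / ((∑ i, α i)! : ℝ)

/-- The monomial `z^α`. -/
noncomputable def mono {d : ℕ} (z : Cd d) (α : Fin d → ℕ) : ℂ := ∏ i, z i ^ α i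

/-- `f` is, on the open unit ball, the sum of the power series `∑ a(α) z^α`, and
`∑ (α!/|α|!) |a(α)|² < ∞`. -/
def HasCoeffs {d : ℕ} (f : Cd d → ℂ) (a : (Fin d → ℕ) → ℂ) : Prop :=
  (Summable fun α => wt α * ‖a α‖ ^ 2) ∧
    ∀ z ∈ Metric.ball (0 : Cd d) 1, HasSum (fun α => a α * mono z α) (f z)

/-- The Drury-Arveson space `H²_d` (as a set of functions; only the values on the open unit ball
matter). -/
def DA (d : ℕ) : Set (Cd d → ℂ) := {f | ∃ a, HasCoeffs f a}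

/-- `‖f‖_{H²_d} < ε`. -/
def NormLT {d : ℕ} (f : Cd d → ℂ) (ε : ℝ) : Prop :=
  ∃ a, HasCoeffs f a ∧ ∑' α, wt α * ‖a α‖ ^ 2 < ε ^ 2

/-- The multipliers of `H²_d`. -/
def Mult (d : ℕ) : Set (Cd d → ℂ) := {m | ∀ f ∈ DA d, m * f ∈ DA d}

/-- `[f]`: the closure in `H²_d` of `{m f : m ∈ Mult(H²_d)}`. -/
def cyc {d : ℕ} (f : Cd d → ℂ) : Set (Cd d → ℂ) :=
  {g | g ∈ DA d ∧ ∀ ε > 0, ∃ m ∈ Mult d, NormLT (m * f - g) ε}

theorem wt_pos {d : ℕ} (α : Fin d → ℕ) : 0 < wt α := by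
  unfold wt
  have h1 : (0:ℝ) < ∏ i, ((α i)! : ℝ) := Finset.prod_pos fun i _ => by positivity
  positivity

theorem multinomial_eq {d : ℕ} (α : Fin d → ℕ) :
    (Nat.multinomial univ α : ℝ) = (wt α)⁻¹ := by
  have h := Nat.multinomial_spec univ α
  have h' : (∏ i, ((α i)! : ℝ)) * (Nat.multinomial univ α : ℝ) = ((∑ i, α i)! : ℝ) := by
    exact_mod_cast h
  have h1 : (0:ℝ) < ∏ i, ((α i)! : ℝ) := Finset.prod_pos fun i _ => by positivity
  unfold wt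
  rw [inv_div, ← h']
  field_simp

theorem piAntidiag_sum {R : Type*} [CommSemiring R] {d : ℕ} (x : Fin d → R) (n : ℕ) :
    ∑ α ∈ piAntidiag (univ : Finset (Fin d)) n, (Nat.multinomial univ α : R) * ∏ i, x i ^ α i =
      (∑ i, x i) ^ n := (sum_pow_eq_sum_piAntidiag univ x n).symm

theorem multinomial_summable {d : ℕ} (x : Fin d → ℝ) (hx0 : ∀ i, 0 ≤ x i) (hx : ∑ i, x i < 1) :
    Summable fun α : Fin d → ℕ => (Nat.multinomial univ α : ℝ) * ∏ i, x i ^ α i := by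
  have hq0 : 0 ≤ ∑ i, x i := Finset.sum_nonneg fun i _ => hx0 i
  have hnn : ∀ α : Fin d → ℕ, 0 ≤ (Nat.multinomial univ α : ℝ) * ∏ i, x i ^ α i := fun α =>
    mul_nonneg (by positivity) (Finset.prod_nonneg fun i _ => pow_nonneg (hx0 i) _)
  refine summable_of_sum_le (c := (1 - ∑ i, x i)⁻¹) hnn ?_
  intro u
  let N := u.sup (fun α => ∑ i, α i) + 1
  have hsub : u ⊆ (range N).biUnion fun n => piAntidiag (univ : Finset (Fin d)) n := by
    intro α hα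
    rw [mem_biUnion]
    refine ⟨∑ i, α i, ?_, ?_⟩
    · rw [mem_range]
      have : (fun α : Fin d → ℕ => ∑ i, α i) α ≤ u.sup (fun α => ∑ i, α i) := Finset.le_sup hα
      simp only [N]
      simp only at this
      omega
    · simp [mem_piAntidiag]
  calc ∑ α ∈ u, (Nat.multinomial univ α : ℝ) * ∏ i, x i ^ α i
      ≤ ∑ α ∈ (range N).biUnion fun n => piAntidiag (univ : Finset (Fin d)) n,
          (Nat.multinomial univ α : ℝ) * ∏ i, x i ^ α i :=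
        Finset.sum_le_sum_of_subset_of_nonneg hsub fun α _ _ => hnn α
    _ = ∑ n ∈ range N, (∑ i, x i) ^ n := by
        rw [Finset.sum_biUnion]
        · exact Finset.sum_congr rfl fun n _ => piAntidiag_sum x n
        · intro m _ n _ hmn
          rw [Function.onFun, Finset.disjoint_left]
          intro α h1 h2
          rw [mem_piAntidiag] at h1 h2
          exact hmn (h1.1.symm.trans h2.1)
    _ ≤ (1 - ∑ i, x i)⁻¹ := by
        rw [← tsum_geometric_of_lt_one hq0 hx]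
        exact (summable_geometric_of_lt_one hq0 hx).sum_le_tsum _ fun n _ => pow_nonneg hq0 n

theorem multinomial_hasSum {d : ℕ} (x : Fin d → ℂ) (hx : ∑ i, ‖x i‖ < 1) :
    HasSum (fun α : Fin d → ℕ => (Nat.multinomial univ α : ℂ) * ∏ i, x i ^ α i)
      (1 - ∑ i, x i)⁻¹ := by
  have hs : Summable fun α : Fin d → ℕ => (Nat.multinomial univ α : ℂ) * ∏ i, x i ^ α i := by
    refine Summable.of_norm ?_
    refine (multinomial_summable (fun i => ‖x i‖) (fun i => norm_nonneg _) hx).congr fun α => ?_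
    simp
  have h1 := hs.hasSum.tsum_fiberwise (fun α : Fin d → ℕ => ∑ i, α i)
  have h2 : ∀ n : ℕ, ∑' b : (fun α : Fin d → ℕ => ∑ i, α i) ⁻¹' {n},
      ((Nat.multinomial univ (b : Fin d → ℕ) : ℂ) * ∏ i, x i ^ (b : Fin d → ℕ) i) =
        (∑ i, x i) ^ n := by
    intro n
    have hset : (fun α : Fin d → ℕ => ∑ i, α i) ⁻¹' {n} =
        ((piAntidiag (univ : Finset (Fin d)) n : Finset (Fin d → ℕ)) : Set (Fin d → ℕ)) := by
      ext α; simp [mem_piAntidiag]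
    rw [hset, Finset.tsum_subtype' (piAntidiag (univ : Finset (Fin d)) n)
      (fun α => (Nat.multinomial univ α : ℂ) * ∏ i, x i ^ α i), piAntidiag_sum]
  simp only [h2] at h1
  have hn : ‖∑ i, x i‖ < 1 := (norm_sum_le _ _).trans_lt hx
  have h3 := hasSum_geometric_of_norm_lt_one hn
  rw [← h1.unique h3]
  exact hs.hasSum

/-- The Hilbert space model of `H²_d`. -/
noncomputable abbrev L2 (d : ℕ) := lp (fun _ : Fin d → ℕ => ℂ) 2

/-- Coefficients of the kernel vector at `z`. -/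
noncomputable def kerFun {d : ℕ} (z : Cd d) (α : Fin d → ℕ) : ℂ :=
  conj (mono z α) * ((Real.sqrt (wt α)⁻¹ : ℝ) : ℂ)

theorem norm_mono {d : ℕ} (z : Cd d) (α : Fin d → ℕ) : ‖mono z α‖ = ∏ i, ‖z i‖ ^ α i := by
  simp [mono]

theorem sq_sqrt_wt {d : ℕ} (α : Fin d → ℕ) : Real.sqrt (wt α)⁻¹ ^ 2 = (wt α)⁻¹ :=
  Real.sq_sqrt (inv_nonneg.mpr (wt_pos α).le)

theorem kerFun_summable {d : ℕ} {z : Cd d} (hz : ‖z‖ < 1) :
    Summable fun α => ‖kerFun z α‖ ^ 2 := by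
  have hx : ∑ i, ‖z i‖ ^ 2 < 1 := by
    have := EuclideanSpace.norm_sq_eq z
    rw [← this]
    have h0 := norm_nonneg z
    nlinarith
  refine (multinomial_summable (fun i => ‖z i‖ ^ 2) (fun i => by positivity) hx).congr fun α => ?_
  rw [kerFun, norm_mul, mul_pow, Complex.norm_real, Real.norm_eq_abs, sq_abs, sq_sqrt_wt,
    RCLike.norm_conj, norm_mono, multinomial_eq, mul_comm, ← Finset.prod_pow]
  congr 1
  exact Finset.prod_congr rfl fun i _ => by ring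

theorem kerFun_memlp {d : ℕ} {z : Cd d} (hz : ‖z‖ < 1) : Memℓp (kerFun z) 2 := by
  refine memℓp_gen ?_
  simpa using kerFun_summable hz

/-- The kernel vector at `z`. -/
noncomputable def ker {d : ℕ} (z : Metric.ball (0 : Cd d) 1) : L2 d :=
  ⟨kerFun z.1, kerFun_memlp (mem_ball_zero_iff.mp z.2)⟩

theorem ker_apply {d : ℕ} (z : Metric.ball (0 : Cd d) 1) (α : Fin d → ℕ) :
    ker z α = kerFun z.1 α := rfl

theorem inner_ker_ker {d : ℕ} (z w : Metric.ball (0 : Cd d) 1) :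
    ⟪ker z, ker w⟫_ℂ = (1 - ⟪w.1, z.1⟫_ℂ)⁻¹ := by
  have hz : ‖z.1‖ < 1 := mem_ball_zero_iff.mp z.2
  have hw : ‖w.1‖ < 1 := mem_ball_zero_iff.mp w.2
  have h1 := lp.hasSum_inner (𝕜 := ℂ) (ker z) (ker w)
  have hx : ∑ i, ‖z.1 i * conj (w.1 i)‖ < 1 := by
    have hcs : ∑ i, ‖z.1 i‖ * ‖w.1 i‖ ≤
        Real.sqrt (∑ i, ‖z.1 i‖ ^ 2) * Real.sqrt (∑ i, ‖w.1 i‖ ^ 2) :=
      Real.sum_mul_le_sqrt_mul_sqrt _ _ _
    rw [← EuclideanSpace.norm_eq, ← EuclideanSpace.norm_eq] at hcs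
    calc ∑ i, ‖z.1 i * conj (w.1 i)‖ = ∑ i, ‖z.1 i‖ * ‖w.1 i‖ := by
          refine Finset.sum_congr rfl fun i _ => ?_
          rw [norm_mul, RCLike.norm_conj]
      _ ≤ ‖z.1‖ * ‖w.1‖ := hcs
      _ < 1 := by
          have h0 := norm_nonneg z.1
          have h0' := norm_nonneg w.1
          nlinarith
  have h2 := multinomial_hasSum (fun i => z.1 i * conj (w.1 i)) hx
  have h3 : (fun α : Fin d → ℕ => ⟪ker z α, ker w α⟫_ℂ) =
      fun α : Fin d → ℕ => (Nat.multinomial univ α : ℂ) * ∏ i, (z.1 i * conj (w.1 i)) ^ α i := by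
    funext α
    rw [ker_apply, ker_apply, kerFun, kerFun]
    have h4 : ((Nat.multinomial univ α : ℕ) : ℂ) = ((Real.sqrt (wt α)⁻¹ : ℝ) : ℂ) *
        ((Real.sqrt (wt α)⁻¹ : ℝ) : ℂ) := by
      rw [← Complex.ofReal_mul, ← pow_two, sq_sqrt_wt, ← multinomial_eq]
      simp
    rw [h4]
    simp only [mono, RCLike.inner_apply, map_mul, Complex.conj_conj, Complex.conj_ofReal, mul_pow,
      Finset.prod_mul_distrib, map_prod, map_pow]
    ring
  rw [h3] at h1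
  rw [h1.unique h2]
  congr 2

theorem hasSum_inner_ker {d : ℕ} (z : Metric.ball (0 : Cd d) 1) (u : L2 d) :
    HasSum (fun α => (u α * ((Real.sqrt (wt α)⁻¹ : ℝ) : ℂ)) * mono z.1 α) ⟪ker z, u⟫_ℂ := by
  have h1 := lp.hasSum_inner (𝕜 := ℂ) (ker z) u
  have h2 : (fun α => ⟪ker z α, u α⟫_ℂ) =
      fun α => (u α * ((Real.sqrt (wt α)⁻¹ : ℝ) : ℂ)) * mono z.1 α := by
    funext α
    rw [ker_apply, kerFun]
    simp only [RCLike.inner_apply, map_mul, Complex.conj_conj, Complex.conj_ofReal]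
    ring
  rw [h2] at h1
  exact h1

theorem norm_sq_L2 {d : ℕ} (u : L2 d) : HasSum (fun α => ‖u α‖ ^ 2) (‖u‖ ^ 2) := by
  have := lp.hasSum_norm (p := 2) (by norm_num) u
  simpa using this

theorem wt_mul {d : ℕ} (u : ℂ) (α : Fin d → ℕ) :
    wt α * ‖u * ((Real.sqrt (wt α)⁻¹ : ℝ) : ℂ)‖ ^ 2 = ‖u‖ ^ 2 := by
  rw [norm_mul, mul_pow, Complex.norm_real, Real.norm_eq_abs, sq_abs, sq_sqrt_wt]
  have := (wt_pos α).ne'
  field_simp

theorem hasCoeffs_of_vec {d : ℕ} {f : Cd d → ℂ} (u : L2 d)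
    (h : ∀ z : Metric.ball (0 : Cd d) 1, ⟪ker z, u⟫_ℂ = f z.1) :
    HasCoeffs f (fun α => u α * ((Real.sqrt (wt α)⁻¹ : ℝ) : ℂ)) := by
  refine ⟨?_, ?_⟩
  · simp only [wt_mul]
    exact (norm_sq_L2 u).summable
  · intro z hz
    have := hasSum_inner_ker ⟨z, hz⟩ u
    rw [h ⟨z, hz⟩] at this
    exact this

theorem mem_DA_of_vec {d : ℕ} {f : Cd d → ℂ} (u : L2 d)
    (h : ∀ z : Metric.ball (0 : Cd d) 1, ⟪ker z, u⟫_ℂ = f z.1) : f ∈ DA d :=
  ⟨_, hasCoeffs_of_vec u h⟩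

theorem vec_of_hasCoeffs {d : ℕ} {f : Cd d → ℂ} {a : (Fin d → ℕ) → ℂ} (h : HasCoeffs f a) :
    ∃ u : L2 d, ‖u‖ ^ 2 = ∑' α, wt α * ‖a α‖ ^ 2 ∧
      ∀ z : Metric.ball (0 : Cd d) 1, ⟪ker z, u⟫_ℂ = f z.1 := by
  have hpt : ∀ α, ‖a α * ((Real.sqrt (wt α) : ℝ) : ℂ)‖ ^ 2 = wt α * ‖a α‖ ^ 2 := by
    intro α
    rw [norm_mul, mul_pow, Complex.norm_real, Real.norm_eq_abs, sq_abs,
      Real.sq_sqrt (wt_pos α).le, mul_comm]
  have hm : Memℓp (fun α => a α * ((Real.sqrt (wt α) : ℝ) : ℂ)) 2 := by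
    refine memℓp_gen ?_
    refine h.1.congr fun α => ?_
    rw [← hpt α]
    norm_num
  let u : L2 d := ⟨fun α => a α * ((Real.sqrt (wt α) : ℝ) : ℂ), hm⟩
  have hu : ∀ α, u α = a α * ((Real.sqrt (wt α) : ℝ) : ℂ) := fun α => rfl
  refine ⟨u, ?_, ?_⟩
  · have h1 := norm_sq_L2 u
    simp only [hu, hpt] at h1
    exact h1.tsum_eq.symm
  · intro z
    have h1 := hasSum_inner_ker z u
    have h2 := h.2 z.1 z.2
    refine h1.unique ?_
    have h3 : (fun α => u α * ((Real.sqrt (wt α)⁻¹ : ℝ) : ℂ) * mono z.1 α) =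
        fun α => a α * mono z.1 α := by
     funext α
     rw [hu]
     have : ((Real.sqrt (wt α) : ℝ) : ℂ) * ((Real.sqrt (wt α)⁻¹ : ℝ) : ℂ) = 1 := by
       rw [← Complex.ofReal_mul, ← Real.sqrt_mul (wt_pos α).le, mul_inv_cancel₀ (wt_pos α).ne']
       simp
     rw [mul_assoc (a α), this, mul_one]
    rw [h3]
    exact h2

theorem mem_DA_iff {d : ℕ} {f : Cd d → ℂ} :
    f ∈ DA d ↔ ∃ u : L2 d, ∀ z : Metric.ball (0 : Cd d) 1, ⟪ker z, u⟫_ℂ = f z.1 := by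
  constructor
  · rintro ⟨a, ha⟩
    obtain ⟨u, -, hu⟩ := vec_of_hasCoeffs ha
    exact ⟨u, hu⟩
  · rintro ⟨u, hu⟩
    exact mem_DA_of_vec u hu

end Pool.Agent.H55DA
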